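import Pool.Agent.Work.MP_973fa8_h22.Iter

/-! # MP_973fa8: a definable chain of functions; all iterates of one stay below the next -/

set_option autoImplicit false

namespace Pool.Agent.Work.MP_973fa8.h22

open Set Filter Topology Pool.Agent.Work.MP_973fa8.helper46

variable {L : FirstOrder.Language.{0, 0}} [L.Structure ℝ] {α : Type}

/-- the length of the steps of the `t`-th function -/
noncomputable def dl (g : ℝ → ℝ) (t x : ℝ) : ℝ := Real.exp (-(|1 - t| * |g (g x)|))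

theorem dl_pos (g : ℝ → ℝ) (t x : ℝ) : 0 < dl g t x := Real.exp_pos _

theorem dl_le (g : ℝ → ℝ) (t x : ℝ) : dl g t x ≤ 1 := by
  unfold dl
  rw [Real.exp_le_one_iff]
  have := mul_nonneg (abs_nonneg (1 - t)) (abs_nonneg (g (g x)))
  linarith

theorem ddl (o : Omin L) (hexp : DF L (fun v : Fin 1 → ℝ => Real.exp (v 0)))
    {g : ℝ → ℝ} (hg : DF L (fun v : Fin 1 → ℝ => g (v 0)))
    {F K : (α → ℝ) → ℝ} (hF : DF L F) (hK : DF L K) : DF L (fun v => dl g (F v) (K v)) := by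
  unfold dl
  exact DF.sub1 hexp (o.dneg (o.dmul (o.dabs (o.dsub (DF.const 1) hF))
    (o.dabs (DF.sub1 hg (DF.sub1 hg hK)))))

/-- all steps are at least `ε` -/
theorem ep_le_dl {g : ℝ → ℝ} (hg : Slow2 L g) :
    ∀ᶠ x in atTop, ∀ t, 0 ≤ t → t ≤ 1 → ep g x ≤ dl g t x := by
  obtain ⟨R, hR⟩ := eventually_atTop.1 (hg.sl 1)
  have h1 : ∀ᶠ y in atTop, g y ≤ Real.log y := by
    filter_upwards [eventually_ge_atTop (Real.exp R), eventually_gt_atTop 0] with y hy hy0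
    have h2 : R ≤ Real.log y := by
      rw [← Real.log_exp R]
      exact Real.log_le_log (Real.exp_pos _) hy
    have h3 := hR _ h2
    have h4 : Real.exp^[1] (Real.log y) = y := by
      rw [Function.iterate_one, Real.exp_log hy0]
    rw [h4] at h3
    exact h3
  filter_upwards [hg.tt.eventually h1, (hg.tt.comp hg.tt).eventually_ge_atTop 0,
    hg.tt.eventually_gt_atTop 0] with x hx1 hx2 hx3 t ht0 ht1
  have hx2' : 0 ≤ g (g x) := hx2
  unfold ep dl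
  rw [abs_of_nonneg (by linarith : 0 ≤ 1 - t), abs_of_nonneg hx2', abs_of_pos hx3, Real.exp_neg]
  apply inv_anti₀ (Real.exp_pos _)
  have h5 : (1 - t) * g (g x) ≤ Real.log (g x) := by nlinarith
  have h6 := Real.exp_le_exp.2 h5
  rw [Real.exp_log hx3] at h6
  linarith

/-- `n` steps of the function `s` fit in one step of the function `t` -/
theorem dl_mul {g : ℝ → ℝ} (hg : Slow2 L g) {τ : ℝ} (hτ : 0 < τ) (n : ℕ) :
    ∀ᶠ x in atTop, ∀ s t, 0 ≤ s → s + τ ≤ t → t ≤ 1 → n * dl g s x ≤ dl g t x := by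
  filter_upwards [(hg.tt.comp hg.tt).eventually_ge_atTop (Real.log (n + 1) / τ),
    (hg.tt.comp hg.tt).eventually_ge_atTop 0] with x hx hx2 s t hs hst ht
  have hx2' : 0 ≤ g (g x) := hx2
  have hx' : Real.log (n + 1) / τ ≤ g (g x) := hx
  rw [div_le_iff₀ hτ] at hx'
  have hn0 : (0 : ℝ) ≤ n := Nat.cast_nonneg n
  have h1 : (n : ℝ) ≤ Real.exp (Real.log (n + 1)) := by
    rw [Real.exp_log (by linarith)]
    linarith
  unfold dl
  rw [abs_of_nonneg (by linarith : 0 ≤ 1 - t), abs_of_nonneg hx2',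
    abs_of_nonneg (by linarith : 0 ≤ 1 - s)]
  calc (n : ℝ) * Real.exp (-((1 - s) * g (g x)))
      ≤ Real.exp (Real.log (n + 1)) * Real.exp (-((1 - s) * g (g x))) :=
        mul_le_mul_of_nonneg_right h1 (Real.exp_pos _).le
    _ = Real.exp (Real.log (n + 1) + -((1 - s) * g (g x))) := (Real.exp_add _ _).symm
    _ ≤ Real.exp (-((1 - t) * g (g x))) := by
        apply Real.exp_le_exp.2
        nlinarith

/-- the values of `Φ (s + δ x) x` with `y ≤ Φ s x` -/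
def XU {g : ℝ → ℝ} (hg : Slow2 L g) (h : ℝ → ℝ) (t y z : ℝ) : Prop :=
  ∃ x, ∃ s, 0 ≤ x ∧ 0 ≤ s ∧ s + dl g t x ≤ 1 ∧ y ≤ Ph hg h s x ∧ z = Ph hg h (s + dl g t x) x

/-- the chain -/
noncomputable def zt {g : ℝ → ℝ} (hg : Slow2 L g) (h : ℝ → ℝ) (t y : ℝ) : ℝ :=
  sInf {z | XU hg h t y z}

theorem XU_ne {g : ℝ → ℝ} (hg : Slow2 L g) {h : ℝ → ℝ} (hh : ∀ x, x ≤ h x) (t y : ℝ) :
    ∃ z, XU hg h t y z := by
  refine ⟨Ph hg h (0 + dl g t (max y 0)) (max y 0), max y 0, 0, le_max_right _ _, le_refl _, ?_,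
    ?_, rfl⟩
  · rw [zero_add]
    exact dl_le g _ _
  · rw [Ph_zero hg (le_max_right _ _) (hh _)]
    exact le_max_left _ _

theorem XU_bdd {g : ℝ → ℝ} (hg : Slow2 L g) {h : ℝ → ℝ} (hh : ∀ x, x ≤ h x) (t y : ℝ) :
    BddBelow {z | XU hg h t y z} :=
  ⟨0, by
    rintro z ⟨x, s, hx, hs, hs1, -, rfl⟩
    have := dl_pos g t x
    exact hx.trans (Ph_ge hg (by linarith) hs1 hx (hh x))⟩

theorem dzt (o : Omin L) (hexp : DF L (fun v : Fin 1 → ℝ => Real.exp (v 0)))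
    {g : ℝ → ℝ} (hg : Slow2 L g) {h : ℝ → ℝ}
    (hd : DF L (fun v : Fin 1 → ℝ => h (v 0))) (hh : ∀ x, x ≤ h x) :
    DF L (fun v : Fin 2 → ℝ => zt hg h (v 0) (v 1)) := by
  unfold zt
  have hP := o.dPh hg hd
  apply o.dinf (S := fun v z => XU hg h (v 0) (v 1) z)
  · unfold XU
    apply DP.ex
    apply DP.ex
    apply DP.and (o.dle (DF.const 0) (DF.var _))
    apply DP.and (o.dle (DF.const 0) (DF.var _))
    apply DP.and (o.dle (o.dadd (DF.var _) (ddl o hexp hg.df (DF.var _) (DF.var _))) (DF.const 1))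
    apply DP.and (o.dle (DF.var _) (DF.sub2 hP (DF.var _) (DF.var _)))
    exact (DF.var _).eq (DF.sub2 hP (o.dadd (DF.var _) (ddl o hexp hg.df (DF.var _) (DF.var _)))
      (DF.var _))
  · exact fun v => XU_ne hg hh (v 0) (v 1)
  · exact fun v => XU_bdd hg hh (v 0) (v 1)

theorem zt_mono {g : ℝ → ℝ} (hg : Slow2 L g) {h : ℝ → ℝ} (hh : ∀ x, x ≤ h x) (t : ℝ) {y y' : ℝ}
    (hy : y ≤ y') : zt hg h t y ≤ zt hg h t y' := by
  apply csInf_le_csInf (XU_bdd hg hh t y) (XU_ne hg hh t y')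
  rintro z ⟨x, s, hx, hs, hs1, h1, h2⟩
  exact ⟨x, s, hx, hs, hs1, hy.trans h1, h2⟩

theorem zt_le {g : ℝ → ℝ} (hg : Slow2 L g) {h : ℝ → ℝ} (hh : ∀ x, x ≤ h x) {t s x : ℝ}
    (hx : 0 ≤ x) (hs : 0 ≤ s) (hs1 : s + dl g t x ≤ 1) :
    zt hg h t (Ph hg h s x) ≤ Ph hg h (s + dl g t x) x :=
  csInf_le (XU_bdd hg hh _ _) ⟨x, s, hx, hs, hs1, le_refl _, rfl⟩

theorem zt_iter {g : ℝ → ℝ} (hg : Slow2 L g) {h : ℝ → ℝ} (hh : ∀ x, x ≤ h x) {t σ x : ℝ}
    (hx : 0 ≤ x) (hσ : 0 ≤ σ) (n : ℕ) (hn : σ + n * dl g t x ≤ 1) :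
    (zt hg h t)^[n] (Ph hg h σ x) ≤ Ph hg h (σ + n * dl g t x) x := by
  have hep := dl_pos g t x
  induction n with
  | zero => simp
  | succ n ih =>
    push_cast at hn ⊢
    rw [Function.iterate_succ_apply']
    have h1 := ih (by nlinarith)
    refine (zt_mono hg hh t h1).trans ?_
    have h2 := zt_le hg hh (t := t) (s := σ + n * dl g t x) hx (by positivity) (by linarith)
    rw [show σ + ((n : ℝ) + 1) * dl g t x = σ + n * dl g t x + dl g t x by ring]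
    exact h2

theorem zt_it_mono {g : ℝ → ℝ} (hg : Slow2 L g) {h : ℝ → ℝ} (hh : ∀ x, x ≤ h x) (t : ℝ) (n : ℕ) :
    Monotone ((zt hg h t)^[n]) :=
  Monotone.iterate (fun _ _ hxy => zt_mono hg hh t hxy) n

/-- weak monotonicity of the path -/
theorem Ph_mono {g : ℝ → ℝ} (hg : Slow2 L g) {h : ℝ → ℝ} {x s t : ℝ} (hx0 : 0 ≤ x)
    (hx1 : x ≤ h x) (hs : 0 ≤ s) (hst : s ≤ t) (ht : t ≤ 1) : Ph hg h s x ≤ Ph hg h t x := by
  obtain ⟨h1, h2⟩ := Ph_g hg hs (hst.trans ht) hx0 hx1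
  obtain ⟨h3, h4⟩ := Ph_g hg (hs.trans hst) ht hx0 hx1
  by_contra h5
  push Not at h5
  have h6 := hg.st _ _ h3 h5
  have h7 := hg.mo x (h x) hx0 hx1
  nlinarith

/-- **the chain: all iterates of one function stay below the next** -/
theorem zt_chain {g : ℝ → ℝ} (hg : Slow2 L g) {h : ℝ → ℝ} (hh : ∀ x, x ≤ h x)
    (hm : ∀ x y, x ≤ y → h x ≤ h y) {τ : ℝ} (hτ : 0 < τ) (n : ℕ) :
    ∀ᶠ y in atTop, ∀ s t, 0 ≤ s → s + τ ≤ t → t ≤ 1 →
      (zt hg h s)^[n] y ≤ zt hg h t y := by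
  obtain ⟨X, hX⟩ := eventually_atTop.1 (dl_mul hg hτ n)
  rw [eventually_atTop]
  refine ⟨h X + 1, fun y hy s t hs hst ht => ?_⟩
  apply le_csInf (XU_ne hg hh t y)
  rintro z ⟨x, σ, hx, hσ, hσ1, hyx, rfl⟩
  have hep := dl_pos g t x
  have hep' := dl_pos g s x
  have hxX : X ≤ x := by
    by_contra hlt
    push Not at hlt
    have h1 := Ph_le hg hσ (by linarith) hx (hh x)
    have h2 := hm x X hlt.le
    linarith
  have h3 := hX x hxX s t hs hst ht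
  refine (zt_it_mono hg hh s n hyx).trans ?_
  refine (zt_iter hg hh hx hσ n (by linarith)).trans ?_
  exact Ph_mono hg hx (hh x) (by positivity) (by linarith) hσ1

theorem zt_above (o : Omin L) (hexp : DF L (fun v : Fin 1 → ℝ => Real.exp (v 0)))
    {g : ℝ → ℝ} (hg : Slow2 L g) {h : ℝ → ℝ} (hA : Above h) (hh : ∀ x, x ≤ h x)
    (hm : ∀ x y, x ≤ y → h x ≤ h y) (m : ℕ) (C : ℝ) :
    ∀ᶠ y in atTop, ∀ t, 0 ≤ t → t ≤ 1 → Real.exp^[m] (C * Real.log^[m] y) < zt hg h t y := by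
  obtain ⟨C', hC'⟩ : ∃ C', C' = max C 0 + 1 := ⟨_, rfl⟩
  have hC0 : 0 ≤ C' := by
    rw [hC']
    have := le_max_right C 0
    linarith
  have hCC : C < C' := by
    rw [hC']
    have := le_max_left C 0
    linarith
  obtain ⟨X, hX⟩ := eventually_atTop.1 ((path o hexp hg hA m C').and (ep_le_dl hg))
  rw [eventually_atTop]
  refine ⟨max (h X + 1) (Real.exp^[m] 1), fun y hy t ht0 ht1 => ?_⟩
  have hy1 : h X + 1 ≤ y := (le_max_left _ _).trans hy
  have hy2 : Real.exp^[m] 1 ≤ y := (le_max_right _ _).trans hy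
  refine lt_of_lt_of_le (lev_mono m hC0 hCC hy2 (le_refl y)) ?_
  apply le_csInf (XU_ne hg hh t y)
  rintro z ⟨x, s, hx, hs, hs1, hys, rfl⟩
  have hep := dl_pos g t x
  have hxX : X ≤ x := by
    by_contra hlt
    push Not at hlt
    have h1 := Ph_le hg hs (by linarith) hx (hh x)
    have h2 := hm x X hlt.le
    linarith
  obtain ⟨hX1, hX2⟩ := hX x hxX
  have h5 := hX2 t ht0 ht1
  refine le_trans ?_ (hX1 s (s + dl g t x) hs (by linarith) hs1).le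
  obtain ⟨h1, h2⟩ := exp_log_it m hy2
  obtain ⟨h3, h4⟩ := exp_log_it m (r := Real.log^[m] y) (y := Ph hg h s x) (by rw [h1]; exact hys)
  apply (exp_it_mono m).monotone
  exact mul_le_mul_of_nonneg_left h4 hC0

theorem zt_le_h {g : ℝ → ℝ} (hg : Slow2 L g) {h : ℝ → ℝ} (hh : ∀ x, x ≤ h x) (t : ℝ) {y : ℝ}
    (hy : 0 ≤ y) : zt hg h t y ≤ h y := by
  have hep := dl_pos g t y
  have hep1 := dl_le g t y
  have h1 := zt_le hg hh (t := t) (s := 0) hy le_rfl (by linarith)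
  rw [Ph_zero hg hy (hh y), zero_add] at h1
  exact h1.trans (Ph_le hg hep.le hep1 hy (hh y))

/-- **a definable chain below every function above level zero** -/
theorem chain (o : Omin L) (hexp : DF L (fun v : Fin 1 → ℝ => Real.exp (v 0)))
    {g : ℝ → ℝ} (hg : Slow2 L g) {h : ℝ → ℝ} (hd : DF L (fun v : Fin 1 → ℝ => h (v 0)))
    (hA : Above h) :
    ∃ Ψ : ℝ → ℝ → ℝ, DF L (fun v : Fin 2 → ℝ => Ψ (v 0) (v 1)) ∧ (∀ t, Monotone (Ψ t)) ∧
      (∀ (m : ℕ) (C : ℝ), ∀ᶠ x in atTop, ∀ t, 0 ≤ t → t ≤ 1 →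
        Real.exp^[m] (C * Real.log^[m] x) < Ψ t x) ∧
      (∀ᶠ x in atTop, ∀ t, 0 ≤ t → t ≤ 1 → Ψ t x ≤ h x) ∧
      (∀ τ : ℝ, 0 < τ → ∀ n : ℕ, ∀ᶠ x in atTop, ∀ s t, 0 ≤ s → s + τ ≤ t → t ≤ 1 →
        (Ψ s)^[n] x ≤ Ψ t x) := by
  obtain ⟨a, ha⟩ := eventually_atTop.1 (hA 0 1)
  have ha' : ∀ y, a ≤ y → y < h y := by
    intro y hy
    have := ha y hy
    simpa using this
  have hmg := hmin_ge ha'
  have hmm : ∀ x y, x ≤ y → hmin h a x ≤ hmin h a y := fun x y hxy => hmin_mono ha' hxy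
  refine ⟨zt hg (hmin h a), dzt o hexp hg (o.dhmin hd ha') hmg,
    fun t x y hxy => zt_mono hg hmg t hxy,
    fun m C => zt_above o hexp hg (hmin_above hA a) hmg hmm m C, ?_,
    fun τ hτ n => zt_chain hg hmg hmm hτ n⟩
  filter_upwards [eventually_ge_atTop (max a 0)] with x hx t _ _
  have hxa : a ≤ x := (le_max_left _ _).trans hx
  have hx0 : 0 ≤ x := (le_max_right _ _).trans hx
  exact (zt_le_h hg hmg t hx0).trans (hmin_le ha' hxa)

end Pool.Agent.Work.MP_973fa8.h22
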