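import Pool.Agent.Work.MP_973fa8_h22.Chain

/-! # MP_973fa8: the chain as a path from the identity to `h` -/

set_option autoImplicit false

namespace Pool.Agent.Work.MP_973fa8.h22

open Set Filter Topology Pool.Agent.Work.MP_973fa8.helper46

variable {L : FirstOrder.Language.{0, 0}} [L.Structure ℝ] {α : Type}

/-- the values in the one-sided infimal convolution -/
def GS (Ψ : ℝ → ℝ → ℝ) (h : ℝ → ℝ) (t x z : ℝ) : Prop :=
  ∃ s, 0 ≤ s ∧ s ≤ 1 ∧ z = |Ψ s x| + |x * h x| * (|t - s| + (t - s))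

/-- the one-sided infimal convolution -/
noncomputable def GG (Ψ : ℝ → ℝ → ℝ) (h : ℝ → ℝ) (t x : ℝ) : ℝ := sInf {z | GS Ψ h t x z}

theorem GS_ne (Ψ : ℝ → ℝ → ℝ) (h : ℝ → ℝ) (t x : ℝ) : ∃ z, GS Ψ h t x z :=
  ⟨_, 0, le_rfl, zero_le_one, rfl⟩

theorem GS_bdd (Ψ : ℝ → ℝ → ℝ) (h : ℝ → ℝ) (t x : ℝ) : BddBelow {z | GS Ψ h t x z} :=
  ⟨0, by
    rintro z ⟨s, -, -, rfl⟩
    have h1 := neg_abs_le (t - s)
    have h2 := mul_nonneg (abs_nonneg (x * h x)) (by linarith : 0 ≤ |t - s| + (t - s))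
    have h3 := abs_nonneg (Ψ s x)
    linarith⟩

theorem dGG (o : Omin L) {Ψ : ℝ → ℝ → ℝ} (hΨ : DF L (fun v : Fin 2 → ℝ => Ψ (v 0) (v 1)))
    {h : ℝ → ℝ} (hd : DF L (fun v : Fin 1 → ℝ => h (v 0))) :
    DF L (fun v : Fin 2 → ℝ => GG Ψ h (v 0) (v 1)) := by
  unfold GG
  apply o.dinf (S := fun v z => GS Ψ h (v 0) (v 1) z)
  · unfold GS
    apply DP.ex
    apply DP.and (o.dle (DF.const 0) (DF.var _))
    apply DP.and (o.dle (DF.var _) (DF.const 1))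
    apply (DF.var _).eq
    exact o.dadd (o.dabs (DF.sub2 hΨ (DF.var _) (DF.var _)))
      (o.dmul (o.dabs (o.dmul (DF.var _) (DF.sub1 hd (DF.var _))))
        (o.dadd (o.dabs (o.dsub (DF.var _) (DF.var _))) (o.dsub (DF.var _) (DF.var _))))
  · exact fun v => GS_ne Ψ h (v 0) (v 1)
  · exact fun v => GS_bdd Ψ h (v 0) (v 1)

theorem GG_le {Ψ : ℝ → ℝ → ℝ} {h : ℝ → ℝ} {t x : ℝ} (ht0 : 0 ≤ t) (ht1 : t ≤ 1) :
    GG Ψ h t x ≤ |Ψ t x| :=
  csInf_le (GS_bdd Ψ h t x) ⟨t, ht0, ht1, by simp⟩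

theorem GG_mono (Ψ : ℝ → ℝ → ℝ) (h : ℝ → ℝ) {t t' : ℝ} (x : ℝ) (ht : t ≤ t') :
    GG Ψ h t x ≤ GG Ψ h t' x := by
  apply le_csInf (GS_ne Ψ h t' x)
  rintro z ⟨s, hs0, hs1, rfl⟩
  refine (csInf_le (GS_bdd Ψ h t x) ⟨s, hs0, hs1, rfl⟩).trans ?_
  have h1 : |t - s| + (t - s) ≤ |t' - s| + (t' - s) := by
    have h2 : |t - s| ≤ |t' - s| + (t' - t) := by
      have h3 := abs_sub_le t t' s
      rw [abs_of_nonpos (by linarith : t - t' ≤ 0)] at h3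
      linarith
    linarith
  have h3 := mul_le_mul_of_nonneg_left h1 (abs_nonneg (x * h x))
  linarith

theorem GG_lip (Ψ : ℝ → ℝ → ℝ) (h : ℝ → ℝ) (x : ℝ) (t t' : ℝ) :
    GG Ψ h t x ≤ GG Ψ h t' x + 2 * |x * h x| * |t - t'| := by
  rw [← sub_le_iff_le_add]
  apply le_csInf (GS_ne Ψ h t' x)
  rintro z ⟨s, hs0, hs1, rfl⟩
  rw [sub_le_iff_le_add]
  refine (csInf_le (GS_bdd Ψ h t x) ⟨s, hs0, hs1, rfl⟩).trans ?_
  have h1 : |t - s| + (t - s) ≤ |t' - s| + (t' - s) + 2 * |t - t'| := by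
    have h3 := abs_sub_le t t' s
    have h4 := le_abs_self (t - t')
    linarith
  have h3 := mul_le_mul_of_nonneg_left h1 (abs_nonneg (x * h x))
  nlinarith

theorem GG_cont (Ψ : ℝ → ℝ → ℝ) (h : ℝ → ℝ) (x : ℝ) : Continuous (fun t => GG Ψ h t x) := by
  have h1 : LipschitzWith (⟨2 * |x * h x|, by positivity⟩ : NNReal) (fun t => GG Ψ h t x) := by
    apply LipschitzWith.of_le_add_mul
    intro t t'
    rw [Real.dist_eq]
    exact GG_lip Ψ h x t t'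
  exact h1.continuous

/-- the path -/
noncomputable def FF (Ψ : ℝ → ℝ → ℝ) (h : ℝ → ℝ) (t x : ℝ) : ℝ :=
  x + t * (GG Ψ h t x - x) + t * Real.exp (-((1 - t) * h x)) * (h x - GG Ψ h 1 x)

theorem dFF (o : Omin L) (hexp : DF L (fun v : Fin 1 → ℝ => Real.exp (v 0)))
    {Ψ : ℝ → ℝ → ℝ} (hΨ : DF L (fun v : Fin 2 → ℝ => Ψ (v 0) (v 1)))
    {h : ℝ → ℝ} (hd : DF L (fun v : Fin 1 → ℝ => h (v 0))) :
    DF L (fun v : Fin 2 → ℝ => FF Ψ h (v 0) (v 1)) := by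
  unfold FF
  have hG := dGG o hΨ hd
  refine o.dadd (o.dadd (DF.var _) (o.dmul (DF.var _) (o.dsub (DF.sub2 hG (DF.var _) (DF.var _))
    (DF.var _)))) (o.dmul (o.dmul (DF.var _) (DF.sub1 hexp (o.dneg (o.dmul (o.dsub (DF.const 1)
      (DF.var _)) (DF.sub1 hd (DF.var _)))))) (o.dsub (DF.sub1 hd (DF.var _))
      (DF.sub2 hG (DF.const 1) (DF.var _))))

/-- the properties of the chain -/
structure Ch (Ψ : ℝ → ℝ → ℝ) (h : ℝ → ℝ) : Prop where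
  mo : ∀ t, Monotone (Ψ t)
  ab : ∀ (m : ℕ) (C : ℝ), ∀ᶠ x in atTop, ∀ t, 0 ≤ t → t ≤ 1 →
    Real.exp^[m] (C * Real.log^[m] x) < Ψ t x
  le : ∀ᶠ x in atTop, ∀ t, 0 ≤ t → t ≤ 1 → Ψ t x ≤ h x
  it : ∀ τ : ℝ, 0 < τ → ∀ n : ℕ, ∀ᶠ x in atTop, ∀ s t, 0 ≤ s → s + τ ≤ t → t ≤ 1 →
    (Ψ s)^[n] x ≤ Ψ t x

variable {Ψ : ℝ → ℝ → ℝ} {h : ℝ → ℝ}

theorem Ch.mul (c : Ch Ψ h) (C : ℝ) : ∀ᶠ x in atTop, ∀ t, 0 ≤ t → t ≤ 1 → C * x < Ψ t x := by
  filter_upwards [c.ab 0 C] with x hx t ht0 ht1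
  simpa using hx t ht0 ht1

/-- lower bound for `G` -/
theorem Ch.G_ge (c : Ch Ψ h) {δ : ℝ} (hδ : 0 < δ) : ∀ᶠ x in atTop, ∀ t, 2 * δ ≤ t → t ≤ 1 →
    Ψ (t - 2 * δ) x ≤ GG Ψ h t x := by
  filter_upwards [c.it δ hδ 1, c.le, c.mul 1, eventually_ge_atTop (1 / δ),
    eventually_gt_atTop 0] with x h1 h2 h3 h4 h5 t ht0 ht1
  apply le_csInf (GS_ne Ψ h t x)
  rintro z ⟨s, hs0, hs1, rfl⟩
  have a1 := h3 s hs0 hs1
  have a2 := h2 (t - 2 * δ) (by linarith) (by linarith)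
  have a3 := h3 (t - 2 * δ) (by linarith) (by linarith)
  have hh : 0 < h x := by linarith
  rw [abs_of_pos (by linarith : 0 < Ψ s x), abs_of_pos (by positivity : 0 < x * h x)]
  rcases le_or_gt (t - δ) s with h6 | h6
  · have a4 := h1 (t - 2 * δ) s (by linarith) (by linarith) hs1
    rw [Function.iterate_one] at a4
    have a5 := neg_abs_le (t - s)
    have a6 := mul_nonneg (by positivity : 0 ≤ x * h x) (by linarith : 0 ≤ |t - s| + (t - s))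
    linarith
  · have a5 := le_abs_self (t - s)
    have a6 : 1 ≤ x * δ := by
      rw [div_le_iff₀ hδ] at h4
      linarith
    have a7 : h x ≤ x * h x * (|t - s| + (t - s)) := by
      have a8 : x * h x * δ ≤ x * h x * (|t - s| + (t - s)) :=
        mul_le_mul_of_nonneg_left (by linarith) (by positivity)
      have a9 : h x * 1 ≤ h x * (x * δ) := mul_le_mul_of_nonneg_left a6 hh.le
      linarith
    linarith

/-- simple facts, uniform in `t ∈ [0, 1]` -/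
theorem Ch.G_bd (c : Ch Ψ h) : ∀ᶠ x in atTop, ∀ t, 0 ≤ t → t ≤ 1 →
    x < GG Ψ h t x ∧ GG Ψ h t x ≤ Ψ t x ∧ GG Ψ h t x ≤ h x := by
  filter_upwards [c.le, c.mul 2, eventually_gt_atTop 0] with x h2 h3 h5 t ht0 ht1
  have a1 := h3 t ht0 ht1
  have a2 := h2 t ht0 ht1
  have a3 : GG Ψ h t x ≤ Ψ t x := by
    refine (GG_le ht0 ht1).trans (le_of_eq ?_)
    exact abs_of_pos (by linarith)
  refine ⟨?_, a3, a3.trans a2⟩
  have a4 : 2 * x ≤ GG Ψ h t x := by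
    apply le_csInf (GS_ne Ψ h t x)
    rintro z ⟨s, hs0, hs1, rfl⟩
    have b1 := h3 s hs0 hs1
    have b2 := neg_abs_le (t - s)
    have b3 := mul_nonneg (abs_nonneg (x * h x)) (by linarith : 0 ≤ |t - s| + (t - s))
    have b4 := le_abs_self (Ψ s x)
    linarith
  linarith

theorem Ch.F_path (c : Ch Ψ h) : ∀ᶠ x in atTop, FF Ψ h 0 x = x ∧ FF Ψ h 1 x = h x ∧
    StrictMonoOn (fun t => FF Ψ h t x) (Icc 0 1) ∧
    (fun t => FF Ψ h t x) '' Icc 0 1 = Icc x (h x) := by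
  filter_upwards [c.G_bd, eventually_gt_atTop 0] with x h1 h2
  have e0 : FF Ψ h 0 x = x := by
    unfold FF
    ring
  have e1 : FF Ψ h 1 x = h x := by
    unfold FF
    simp
  have hG1 := h1 1 zero_le_one le_rfl
  have hh : 0 < h x := by linarith
  have hs : StrictMonoOn (fun t => FF Ψ h t x) (Icc 0 1) := by
    rintro s ⟨hs0, hs1⟩ t ⟨ht0, ht1⟩ hst
    have a1 := h1 s hs0 hs1
    have a2 := h1 t ht0 ht1
    have a3 := GG_mono Ψ h x hst.le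
    have a4 : s * (GG Ψ h s x - x) < t * (GG Ψ h t x - x) := by
      have b1 : s * (GG Ψ h s x - x) ≤ s * (GG Ψ h t x - x) :=
        mul_le_mul_of_nonneg_left (by linarith) hs0
      have b2 : s * (GG Ψ h t x - x) < t * (GG Ψ h t x - x) :=
        mul_lt_mul_of_pos_right hst (by linarith)
      linarith
    have a5 : s * Real.exp (-((1 - s) * h x)) ≤ t * Real.exp (-((1 - t) * h x)) := by
      apply mul_le_mul hst.le _ (Real.exp_pos _).le ht0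
      apply Real.exp_le_exp.2
      nlinarith
    have a6 := mul_le_mul_of_nonneg_right a5 (by linarith : 0 ≤ h x - GG Ψ h 1 x)
    show FF Ψ h s x < FF Ψ h t x
    unfold FF
    linarith
  refine ⟨e0, e1, hs, ?_⟩
  have hc : Continuous (fun t => FF Ψ h t x) := by
    have h3 := GG_cont Ψ h x
    unfold FF
    fun_prop
  apply Subset.antisymm
  · rintro y ⟨t, ht, rfl⟩
    have b1 := hs.monotoneOn (left_mem_Icc.2 zero_le_one) ht ht.1
    have b2 := hs.monotoneOn ht (right_mem_Icc.2 zero_le_one) ht.2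
    simp only [e0, e1] at b1 b2
    exact ⟨b1, b2⟩
  · have h4 := intermediate_value_Icc (zero_le_one' ℝ) hc.continuousOn
    simp only [e0, e1] at h4
    exact h4

/-- lower bound -/
theorem Ch.F_ge (c : Ch Ψ h) {τ : ℝ} (hτ : 0 < τ) : ∀ᶠ x in atTop, ∀ t, τ ≤ t → t ≤ 1 →
    τ * Ψ (t - τ / 2) x ≤ FF Ψ h t x := by
  filter_upwards [c.G_ge (δ := τ / 4) (by positivity), c.G_bd, eventually_gt_atTop 0] with
    x h1 h2 h3 t ht0 ht1
  have a1 := h1 t (by linarith) ht1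
  rw [show t - 2 * (τ / 4) = t - τ / 2 by ring] at a1
  have a2 := h2 t (by linarith) ht1
  have a3 := h2 1 zero_le_one le_rfl
  have a4 : 0 ≤ t * Real.exp (-((1 - t) * h x)) * (h x - GG Ψ h 1 x) :=
    mul_nonneg (mul_nonneg (by linarith) (Real.exp_pos _).le) (by linarith)
  have a5 : τ * Ψ (t - τ / 2) x ≤ τ * GG Ψ h t x := mul_le_mul_of_nonneg_left a1 hτ.le
  have a6 : τ * GG Ψ h t x ≤ t * GG Ψ h t x := mul_le_mul_of_nonneg_right ht0 (by linarith)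
  have a7 : t * x ≤ x := by nlinarith
  unfold FF
  linarith

/-- upper bound -/
theorem Ch.F_le (c : Ch Ψ h) {τ : ℝ} (hτ : 0 < τ) : ∀ᶠ x in atTop, ∀ t, 0 ≤ t → t ≤ 1 - τ →
    FF Ψ h t x ≤ Ψ (t + τ / 4) x := by
  obtain ⟨X, hX⟩ := eventually_atTop.1 (c.mul 2)
  filter_upwards [c.G_bd, eventually_gt_atTop 0, c.it (τ / 4) (by positivity) 2,
    eventually_ge_atTop (1 / τ), eventually_ge_atTop X] with x h1 h2 h3 h5 h6 t ht0 ht1
  have ht : t ≤ 1 := by linarith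
  have a1 := h1 t ht0 ht
  have a2 := h1 1 zero_le_one le_rfl
  have a3 := h3 t (t + τ / 4) ht0 le_rfl (by linarith)
  have e2 : (Ψ t)^[2] x = Ψ t (Ψ t x) := rfl
  rw [e2] at a3
  have a4 := hX x h6 t ht0 ht
  have a5 := hX (Ψ t x) (by linarith) t ht0 ht
  have hh : 0 < h x := by linarith
  have a6 : t * Real.exp (-((1 - t) * h x)) * (h x - GG Ψ h 1 x) ≤ 1 / τ := by
    have b1 : Real.exp (-((1 - t) * h x)) ≤ Real.exp (-(τ * h x)) := by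
      apply Real.exp_le_exp.2
      nlinarith
    have b2 : τ * h x ≤ Real.exp (τ * h x) := by
      have := Real.add_one_le_exp (τ * h x)
      linarith
    have b3 : t * Real.exp (-((1 - t) * h x)) ≤ Real.exp (-(τ * h x)) := by
      have := mul_le_mul ht b1 (Real.exp_pos _).le zero_le_one
      linarith
    have b4 : t * Real.exp (-((1 - t) * h x)) * (h x - GG Ψ h 1 x) ≤
        Real.exp (-(τ * h x)) * h x :=
      mul_le_mul b3 (by linarith) (by linarith) (Real.exp_pos _).le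
    refine b4.trans ?_
    rw [le_div_iff₀ hτ, Real.exp_neg]
    have b5 := Real.exp_pos (τ * h x)
    rw [mul_assoc, inv_mul_le_iff₀ b5]
    linarith
  have a7 : x + t * (GG Ψ h t x - x) ≤ GG Ψ h t x := by nlinarith
  unfold FF
  linarith

theorem Ch.F_id (c : Ch Ψ h) : ∀ᶠ x in atTop, ∀ t, 0 ≤ t → t ≤ 1 → x ≤ FF Ψ h t x := by
  filter_upwards [c.F_path] with x hx t ht0 ht1
  have b1 := hx.2.2.1.monotoneOn (left_mem_Icc.2 zero_le_one) ⟨ht0, ht1⟩ ht0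
  simp only [hx.1] at b1
  exact b1

/-- all iterates of an earlier function stay below the later one -/
theorem Ch.F_it (c : Ch Ψ h) {τ : ℝ} (hτ : 0 < τ) (n : ℕ) : ∀ᶠ x in atTop, ∀ s t, 0 ≤ s →
    s + τ ≤ t → t ≤ 1 → (FF Ψ h s)^[n] x ≤ FF Ψ h t x := by
  obtain ⟨X, hX⟩ := eventually_atTop.1 (c.F_id.and ((c.F_le hτ).and (c.mul (1 / τ))))
  have hX1 : ∀ y, X ≤ y → ∀ t, 0 ≤ t → t ≤ 1 → y ≤ FF Ψ h t y := fun y hy => (hX y hy).1
  have hX2 : ∀ y, X ≤ y → ∀ t, 0 ≤ t → t ≤ 1 - τ → FF Ψ h t y ≤ Ψ (t + τ / 4) y :=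
    fun y hy => (hX y hy).2.1
  have hX3 : ∀ y, X ≤ y → ∀ t, 0 ≤ t → t ≤ 1 → 1 / τ * y < Ψ t y :=
    fun y hy => (hX y hy).2.2
  filter_upwards [eventually_ge_atTop X, c.F_ge hτ, c.it (τ / 4) (by positivity) (n + 1)] with
    x hx h1 h2 s t hs0 hst ht1
  have a1 : ∀ k : ℕ, X ≤ (FF Ψ h s)^[k] x ∧ (FF Ψ h s)^[k] x ≤ (Ψ (s + τ / 4))^[k] x := by
    intro k
    induction k with
    | zero => exact ⟨hx, le_rfl⟩
    | succ k ih =>
      rw [Function.iterate_succ_apply', Function.iterate_succ_apply']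
      refine ⟨ih.1.trans (hX1 _ ih.1 s hs0 (by linarith)), ?_⟩
      exact (hX2 _ ih.1 s hs0 (by linarith)).trans (c.mo _ ih.2)
  obtain ⟨a2, a3⟩ := a1 n
  have a4 := h2 (s + τ / 4) (t - τ / 2) (by linarith) (by linarith) (by linarith)
  rw [Function.iterate_succ_apply'] at a4
  have a5 := hX3 ((Ψ (s + τ / 4))^[n] x) (a2.trans a3) (s + τ / 4) (by linarith) (by linarith)
  have a6 := h1 t (by linarith) ht1
  have a7 : (Ψ (s + τ / 4))^[n] x ≤ τ * Ψ (t - τ / 2) x := by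
    have b1 : 1 / τ * (Ψ (s + τ / 4))^[n] x ≤ Ψ (t - τ / 2) x := by linarith
    rw [one_div, inv_mul_le_iff₀ hτ] at b1
    exact b1
  linarith

theorem Ch.F_ab (c : Ch Ψ h) {τ : ℝ} (hτ : 0 < τ) (m : ℕ) (C : ℝ) : ∀ᶠ x in atTop, ∀ t,
    τ ≤ t → t ≤ 1 → Real.exp^[m] (C * Real.log^[m] x) < FF Ψ h t x := by
  obtain ⟨X, hX⟩ := eventually_atTop.1 (c.mul (1 / τ))
  filter_upwards [eventually_ge_atTop X, eventually_gt_atTop 0, c.F_ge hτ,
    c.it (τ / 2) (by positivity) 2, c.ab m C, c.mul 1] with x hx hx0 h1 h2 h3 h4 t ht0 ht1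
  have a1 := h1 t ht0 ht1
  have a2 := h2 0 (t - τ / 2) le_rfl (by linarith) (by linarith)
  have e2 : (Ψ 0)^[2] x = Ψ 0 (Ψ 0 x) := rfl
  rw [e2] at a2
  have a3 := h3 0 le_rfl zero_le_one
  have a4 := h4 0 le_rfl zero_le_one
  have a5 := hX (Ψ 0 x) (by linarith) 0 le_rfl zero_le_one
  have a7 : Ψ 0 x ≤ τ * Ψ (t - τ / 2) x := by
    have b1 : 1 / τ * Ψ 0 x ≤ Ψ (t - τ / 2) x := by linarith
    rw [one_div, inv_mul_le_iff₀ hτ] at b1
    exact b1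
  linarith

/-- with `t < 1`, two steps of a function below the `t`-th one stay below `h` -/
theorem Ch.F_two (c : Ch Ψ h) {t : ℝ} (ht0 : 0 ≤ t) (ht1 : t < 1) {u : ℝ → ℝ} (hu : Above u)
    (hut : ∀ᶠ x in atTop, u x ≤ FF Ψ h t x) (n : ℕ) : ∀ᶠ x in atTop, u^[n] x ≤ h x := by
  obtain ⟨τ, hτ⟩ : ∃ τ, τ = 1 - t := ⟨_, rfl⟩
  have hτ0 : 0 < τ := by linarith
  have hx : ∀ᶠ x in atTop, x < u x := by
    filter_upwards [hu 0 1] with x hx
    simpa using hx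
  obtain ⟨X, hX⟩ := eventually_atTop.1 (hx.and (hut.and (c.F_le hτ0)))
  have hX1 : ∀ y, X ≤ y → y < u y := fun y hy => (hX y hy).1
  have hX2 : ∀ y, X ≤ y → u y ≤ Ψ (t + τ / 4) y :=
    fun y hy => (hX y hy).2.1.trans ((hX y hy).2.2 t ht0 (by linarith))
  filter_upwards [eventually_ge_atTop X, c.it (τ / 4) (by positivity) n, c.le] with x hx h1 h2
  have a1 : ∀ k : ℕ, X ≤ u^[k] x ∧ u^[k] x ≤ (Ψ (t + τ / 4))^[k] x := by
    intro k
    induction k with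
    | zero => exact ⟨hx, le_rfl⟩
    | succ k ih =>
      rw [Function.iterate_succ_apply', Function.iterate_succ_apply']
      exact ⟨ih.1.trans (hX1 _ ih.1).le, (hX2 _ ih.1).trans (c.mo _ ih.2)⟩
  have a2 := h1 (t + τ / 4) 1 (by linarith) (by linarith) le_rfl
  exact (a1 n).2.trans (a2.trans (h2 1 zero_le_one le_rfl))

/-- **the path from the identity to `h`** -/
theorem full (o : Omin L) (hexp : DF L (fun v : Fin 1 → ℝ => Real.exp (v 0)))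
    {g : ℝ → ℝ} (hg : Slow2 L g) {h : ℝ → ℝ} (hd : DF L (fun v : Fin 1 → ℝ => h (v 0)))
    (hA : Above h) :
    ∃ Φ : ℝ → ℝ → ℝ, DF L (fun v : Fin 2 → ℝ => Φ (v 0) (v 1)) ∧
      (∀ᶠ x in atTop, Φ 0 x = x ∧ Φ 1 x = h x ∧ StrictMonoOn (fun t => Φ t x) (Icc 0 1) ∧
        (fun t => Φ t x) '' Icc 0 1 = Icc x (h x)) ∧
      (∀ τ : ℝ, 0 < τ → ∀ (m : ℕ) (C : ℝ), ∀ᶠ x in atTop, ∀ t, τ ≤ t → t ≤ 1 →
        Real.exp^[m] (C * Real.log^[m] x) < Φ t x) ∧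
      (∀ τ : ℝ, 0 < τ → ∀ n : ℕ, ∀ᶠ x in atTop, ∀ s t, 0 ≤ s → s + τ ≤ t → t ≤ 1 →
        (Φ s)^[n] x ≤ Φ t x) ∧
      (∀ t, 0 ≤ t → t < 1 → ∀ u : ℝ → ℝ, Above u → (∀ᶠ x in atTop, u x ≤ Φ t x) →
        ∀ n : ℕ, ∀ᶠ x in atTop, u^[n] x ≤ h x) := by
  obtain ⟨Ψ, h1, h2, h3, h4, h5⟩ := chain o hexp hg hd hA
  have c : Ch Ψ h := ⟨h2, h3, h4, h5⟩
  exact ⟨FF Ψ h, dFF o hexp h1 hd, c.F_path, fun τ hτ m C => c.F_ab hτ m C,
    fun τ hτ n => c.F_it hτ n, fun t ht0 ht1 u hu hut n => c.F_two ht0 ht1 hu hut n⟩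

end Pool.Agent.Work.MP_973fa8.h22
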