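import Pool.Agent.Work.MP_973fa8_helper46.Fin

/-! # MP_973fa8: a function above level zero all of whose iterates stay below `h` -/

set_option autoImplicit false

namespace Pool.Agent.Work.MP_973fa8.h22

open Set Filter Topology Pool.Agent.Work.MP_973fa8.helper46

variable {L : FirstOrder.Language.{0, 0}} [L.Structure ℝ] {α : Type}

/-- the length of the steps -/
noncomputable def ep (g : ℝ → ℝ) (x : ℝ) : ℝ := (1 + |g x|)⁻¹

theorem ep_pos (g : ℝ → ℝ) (x : ℝ) : 0 < ep g x := by
  unfold ep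
  have := abs_nonneg (g x)
  positivity

theorem ep_le (g : ℝ → ℝ) (x : ℝ) : ep g x ≤ 1 := by
  unfold ep
  have := abs_nonneg (g x)
  apply inv_le_one_of_one_le₀
  linarith

theorem dep (o : Omin L) {g : ℝ → ℝ} (hg : DF L (fun v : Fin 1 → ℝ => g (v 0)))
    {F : (α → ℝ) → ℝ} (hF : DF L F) : DF L (fun v => ep g (F v)) := by
  unfold ep
  exact o.dinv (o.dadd (DF.const 1) (o.dabs (DF.sub1 hg hF)))

/-- the quadratic step is much larger than a linear step -/
theorem quad (o : Omin L) (hexp : DF L (fun v : Fin 1 → ℝ => Real.exp (v 0)))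
    {G : ℝ → ℝ} (hG : DF L (fun v : Fin 1 → ℝ => G (v 0)))
    (hGt : Tendsto G atTop atTop) (hGst : ∀ x y, 0 ≤ x → x < y → G x < G y)
    (hGs : ∀ᶠ x in atTop, G x ≤ Real.log (Real.log x))
    (hGs' : ∀ᶠ x in atTop, G (Real.exp x) ≤ Real.log (Real.log x)) {C : ℝ} (hC : 1 < C) :
    ∀ᶠ r in atTop, 4 * (1 + |G r|) * inc G C r ≤ G (r ^ 2) - G r := by
  have hGm : ∀ x y, 0 ≤ x → x ≤ y → G x ≤ G y := by
    intro x y hx hxy
    rcases hxy.eq_or_lt with h | h
    · rw [h]
    · exact (hGst x y hx h).le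
  apply o.ev
  · exact o.dle (o.dmul (o.dmul (DF.const 4) (o.dadd (DF.const 1) (o.dabs (DF.sub1 hG (DF.var 0)))))
      (o.dinc hG (DF.const C) (DF.var 0)))
      (o.dsub (DF.sub1 hG (o.dpow (DF.var 0) 2)) (DF.sub1 hG (DF.var 0)))
  · intro hn
    -- the function `G ∘ exp`
    obtain ⟨H, hH⟩ : ∃ H : ℝ → ℝ, H = fun u => G (Real.exp u) := ⟨_, rfl⟩
    have hHd : DF L (fun v : Fin 1 → ℝ => H (v 0)) := by
      rw [hH]
      exact DF.sub1 hG (DF.sub1 hexp (DF.var 0))
    have hHt : Tendsto H atTop atTop := by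
      rw [hH]
      exact hGt.comp Real.tendsto_exp_atTop
    have hHm : ∀ x y, 0 ≤ x → x ≤ y → H x ≤ H y := by
      intro x y _ hxy
      rw [hH]
      exact hGm _ _ (Real.exp_pos _).le (Real.exp_monotone hxy)
    have hHp : ∀ᶠ r in atTop, 0 < inc H 2 r := by
      filter_upwards [eventually_gt_atTop 0] with r hr
      unfold inc
      rw [hH]
      have := hGst (Real.exp r) (Real.exp (2 * r)) (Real.exp_pos _).le
        (Real.exp_strictMono (by linarith))
      simp only
      linarith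
    have hHs : ∀ᶠ x in atTop, H x ≤ Real.log (Real.log x) := by
      rw [hH]
      exact hGs'
    obtain ⟨b, hb⟩ := eventually_atTop.1 ((o.r1 hHd hHt (by norm_num : (1 : ℝ) < 2)
      (by norm_num : (0 : ℝ) ≤ 1 / 2) (by norm_num)).and (o.r2 hHd hHs (by norm_num : (1 : ℝ) < 2) hHp))
    obtain ⟨b', hb'⟩ : ∃ b', b' = max b 1 := ⟨_, rfl⟩
    have hb1 : b ≤ b' := by rw [hb']; exact le_max_left _ _
    have hb2 : 1 ≤ b' := by rw [hb']; exact le_max_right _ _
    obtain ⟨a, ha⟩ := eventually_atTop.1 (hn.and (hGt.eventually_ge_atTop 0))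
    -- the choice of `n`
    have hC0 : 0 < Real.log C := Real.log_pos hC
    have hCt : Tendsto (fun n : ℕ => C ^ n) atTop atTop := tendsto_pow_atTop_atTop_of_one_lt hC
    have hCt2 : Tendsto (fun n : ℕ => C ^ (2 * n)) atTop atTop :=
      hCt.comp (tendsto_id.const_mul_atTop' (by norm_num : 0 < 2))
    have hlt : Tendsto (fun n : ℕ => (2 * Real.log C) * (n : ℝ)) atTop atTop :=
      tendsto_natCast_atTop_atTop.const_mul_atTop (by positivity)
    have hlog : ∀ᶠ x : ℝ in atTop, Real.log x ≤ 1 / (64 * Real.log C) * x := by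
      have h1 : 0 < 1 / (64 * Real.log C) := by positivity
      have h2 := (Real.isLittleO_log_id_atTop).bound h1
      filter_upwards [h2, eventually_ge_atTop 1] with x hx hx1
      simp only [id, Real.norm_eq_abs] at hx
      rw [abs_of_nonneg (Real.log_nonneg hx1), abs_of_nonneg (by linarith : (0 : ℝ) ≤ x)] at hx
      exact hx
    obtain ⟨n, hn1, hn2, hn3, hn4⟩ := ((hCt.eventually_ge_atTop (max (max a 1) (Real.exp b'))).and
      ((hCt2.eventually hGs).and ((hlt.eventually hlog).and (eventually_ge_atTop 40)))).exists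
    obtain ⟨r, hr⟩ : ∃ r, r = C ^ n := ⟨_, rfl⟩
    rw [← hr] at hn1
    have hra : a ≤ r := ((le_max_left _ _).trans (le_max_left _ _)).trans hn1
    have hr1 : Real.exp b' ≤ r := (le_max_right _ _).trans hn1
    have hr11 : 1 < r := lt_of_lt_of_le (by
      rw [← Real.exp_zero]
      exact Real.exp_strictMono (by linarith)) hr1
    have hr0 : 0 < r := by linarith
    have hsq : C ^ n * r = r ^ 2 := by rw [← hr]; ring
    have hrr : r ≤ r ^ 2 := by nlinarith
    have hG0 : 0 ≤ G (r ^ 2) := (ha (r ^ 2) (hra.trans hrr)).2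
    -- `J ρ = inc H 2 (log ρ)`
    have hJ : ∀ ρ, 0 < ρ → G (ρ ^ 2) - G ρ = inc H 2 (Real.log ρ) := by
      intro ρ hρ
      unfold inc
      rw [hH]
      simp only
      rw [Real.exp_log hρ, show (2 : ℝ) * Real.log ρ = Real.log (ρ ^ 2) by
        rw [Real.log_pow]; norm_num, Real.exp_log (by positivity)]
    have hlr : b' ≤ Real.log r := by
      rw [← Real.log_exp b']
      exact Real.log_le_log (Real.exp_pos _) hr1
    have hJr : 0 < G (r ^ 2) - G r := by
      have := hGst r (r ^ 2) hr0.le (by nlinarith)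
      linarith
    have hJρ : ∀ ρ, r ≤ ρ → ρ ≤ r ^ 2 → (1 / 4) * (G (r ^ 2) - G r) ≤ G (ρ ^ 2) - G ρ := by
      intro ρ hρ1 hρ2
      have hρ0 : 0 < ρ := by linarith
      rw [hJ r hr0, hJ ρ hρ0]
      have h1 : Real.log r ≤ Real.log ρ := Real.log_le_log hr0 hρ1
      have h2 : Real.log ρ ≤ 2 * Real.log r := by
        have := Real.log_le_log hρ0 hρ2
        rw [Real.log_pow] at this
        push_cast at this
        exact this
      have h3 := inc_mono (G := H) hHm (by norm_num : (1 : ℝ) < 2) (by linarith : 0 < b')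
        (fun r' hr' => (hb r' (hb1.trans hr')).2) (hlr.trans h1) h2
      have h4 := (hb (Real.log r) (hb1.trans hlr)).1
      linarith
    have hM : ∀ ρ, r ≤ ρ → ρ ≤ r ^ 2 → (1 / 4) * (G (r ^ 2) - G r) ≤
        4 * (1 + G (r ^ 2)) * inc G C ρ := by
      intro ρ hρ1 hρ2
      have hρ0 : 0 < ρ := by linarith
      have h1 := ha ρ (hra.trans hρ1)
      have h2 := not_le.1 h1.1
      rw [abs_of_nonneg h1.2] at h2
      have h3 := hJρ ρ hρ1 hρ2
      have h4 : G ρ ≤ G (r ^ 2) := hGm _ _ hρ0.le hρ2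
      have h5 : 0 ≤ inc G C ρ := by
        unfold inc
        have := hGm ρ (C * ρ) hρ0.le (by nlinarith)
        linarith
      have h6 : 4 * (1 + G ρ) * inc G C ρ ≤ 4 * (1 + G (r ^ 2)) * inc G C ρ :=
        mul_le_mul_of_nonneg_right (by linarith) h5
      linarith
    have hsum := sum_inc G C r n
    rw [hsq] at hsum
    have h7 : ∑ i ∈ Finset.range n, (1 / 4) * (G (r ^ 2) - G r) ≤
        ∑ i ∈ Finset.range n, 4 * (1 + G (r ^ 2)) * inc G C (C ^ i * r) := by
      apply Finset.sum_le_sum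
      intro i hi
      apply hM
      · exact pow_mul_ge hC hr0 i
      · rw [← hsq]
        apply mul_le_mul_of_nonneg_right _ hr0.le
        exact pow_le_pow_right₀ hC.le (Finset.mem_range.1 hi).le
    rw [Finset.sum_const, Finset.card_range, nsmul_eq_mul, ← Finset.mul_sum, ← hsum] at h7
    have h8 : (n : ℝ) * (1 / 4) ≤ 4 * (1 + G (r ^ 2)) := by
      have h9 : (n : ℝ) * (1 / 4) * (G (r ^ 2) - G r) ≤ 4 * (1 + G (r ^ 2)) * (G (r ^ 2) - G r) := by
        linarith
      exact le_of_mul_le_mul_right h9 hJr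
    have e1 : C ^ (2 * n) = r ^ 2 := by rw [hr, ← pow_mul]; congr 1; ring
    rw [e1] at hn2
    have e2 : Real.log (r ^ 2) = (2 * Real.log C) * n := by
      rw [← e1, Real.log_pow]
      push_cast
      ring
    rw [e2] at hn2
    have e3 : 1 / (64 * Real.log C) * ((2 * Real.log C) * n) = (n : ℝ) / 32 := by
      field_simp
      ring
    rw [e3] at hn3
    have hn5 : (40 : ℝ) ≤ n := by exact_mod_cast hn4
    linarith

end Pool.Agent.Work.MP_973fa8.h22
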