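import Pool.Agent.Work.MP_973fa8_h22.Inf

/-! # MP_973fa8: one function above level zero, all of whose iterates stay below `h` -/

set_option autoImplicit false

namespace Pool.Agent.Work.MP_973fa8.h22

open Set Filter Topology Pool.Agent.Work.MP_973fa8.helper46

variable {L : FirstOrder.Language.{0, 0}} [L.Structure ℝ] {α : Type}

/-- the main estimate, with steps `1 / (1 + |g x|)` -/
theorem path (o : Omin L) (hexp : DF L (fun v : Fin 1 → ℝ => Real.exp (v 0)))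
    {g : ℝ → ℝ} (hg : Slow2 L g) {h : ℝ → ℝ} (hA : Above h) (m : ℕ) (C : ℝ) :
    ∀ᶠ x in atTop, ∀ s t, 0 ≤ s → s + ep g x ≤ t → t ≤ 1 →
      Real.exp^[m] (C * Real.log^[m] (Ph hg h s x)) < Ph hg h t x := by
  obtain ⟨C', hC'⟩ : ∃ C', C' = max C 0 + 2 := ⟨_, rfl⟩
  have hC'1 : 1 < C' := by
    rw [hC']
    have := le_max_right C 0
    linarith
  have hCC : C < C' := by
    rw [hC']
    have := le_max_left C 0
    linarith
  obtain ⟨G, hG⟩ : ∃ G : ℝ → ℝ, G = fun r => g (Real.exp^[m] r) := ⟨_, rfl⟩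
  have hGd : DF L (fun v : Fin 1 → ℝ => G (v 0)) := by
    rw [hG]
    exact DF.sub1 hg.df (Omin.iter hexp m (DF.var 0))
  have hGt : Tendsto G atTop atTop := by
    rw [hG]
    exact hg.tt.comp (exp_it_tt m)
  have hGst : ∀ x y, 0 ≤ x → x < y → G x < G y := by
    intro x y hx hxy
    rw [hG]
    exact hg.st _ _ (exp_it_nonneg m hx) (exp_it_mono m hxy)
  have hGm : ∀ x y, 0 ≤ x → x ≤ y → G x ≤ G y := by
    intro x y hx hxy
    rcases hxy.eq_or_lt with h1 | h1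
    · rw [h1]
    · exact (hGst x y hx h1).le
  have hGp : ∀ r, 0 < r → 0 < inc G C' r := by
    intro r hr
    unfold inc
    have := hGst r (C' * r) hr.le (by nlinarith)
    linarith
  have hGs : ∀ᶠ x in atTop, G x ≤ Real.log (Real.log x) := by
    obtain ⟨R, hR⟩ := eventually_atTop.1 (hg.sl (m + 2))
    rw [eventually_atTop]
    refine ⟨Real.exp^[2] R, fun x hx => ?_⟩
    obtain ⟨h1, h2⟩ := exp_log_it 2 hx
    have h3 := hR _ h2
    rw [Function.iterate_add_apply, h1] at h3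
    rw [hG]
    exact h3
  have hGs' : ∀ᶠ x in atTop, G (Real.exp x) ≤ Real.log (Real.log x) := by
    obtain ⟨R, hR⟩ := eventually_atTop.1 (hg.sl (m + 1 + 2))
    rw [eventually_atTop]
    refine ⟨Real.exp^[2] R, fun x hx => ?_⟩
    obtain ⟨h1, h2⟩ := exp_log_it 2 hx
    have h3 := hR _ h2
    rw [Function.iterate_add_apply, h1] at h3
    rw [hG]
    simp only
    rw [← Function.iterate_succ_apply]
    exact h3
  have hGp' : ∀ᶠ r in atTop, 0 < inc G C' r := by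
    filter_upwards [eventually_gt_atTop 0] with r hr
    exact hGp r hr
  obtain ⟨a1, ha1⟩ := eventually_atTop.1 (o.r2 hGd hGs hC'1 hGp')
  obtain ⟨a2, ha2⟩ := eventually_atTop.1 (quad o hexp hGd hGt hGst hGs hGs' hC'1)
  obtain ⟨a3, ha3⟩ := eventually_atTop.1 (hA (m + 1) 2)
  obtain ⟨a4, ha4⟩ := eventually_atTop.1 (hA 0 1)
  obtain ⟨a, ha⟩ : ∃ a, a = max 1 (max a1 a2) := ⟨_, rfl⟩
  have ha1' : 1 ≤ a := by rw [ha]; exact le_max_left _ _
  have ha11 : a1 ≤ a := by rw [ha]; exact (le_max_left _ _).trans (le_max_right _ _)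
  have ha12 : a2 ≤ a := by rw [ha]; exact (le_max_right _ _).trans (le_max_right _ _)
  rw [eventually_atTop]
  refine ⟨max (max (Real.exp^[m] a) a3) (max a4 0), fun x hx s t hs hst ht => ?_⟩
  have hx1 : Real.exp^[m] a ≤ x := ((le_max_left _ _).trans (le_max_left _ _)).trans hx
  have hx2 : a3 ≤ x := ((le_max_right _ _).trans (le_max_left _ _)).trans hx
  have hx3 : a4 ≤ x := ((le_max_left _ _).trans (le_max_right _ _)).trans hx
  have hx0 : 0 ≤ x := ((le_max_right _ _).trans (le_max_right _ _)).trans hx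
  have hhx : x < h x := by
    have := ha4 x hx3
    simpa using this
  obtain ⟨hr1, hr2⟩ := exp_log_it m hx1
  obtain ⟨r, hr⟩ : ∃ r, r = Real.log^[m] x := ⟨_, rfl⟩
  rw [← hr] at hr1 hr2
  have hep := ep_pos g x
  have hs1 : s ≤ 1 := by linarith
  have ht0 : 0 ≤ t := by linarith
  obtain ⟨hs2, hs3⟩ := Ph_g hg hs hs1 hx0 hhx.le
  obtain ⟨ht2, ht3⟩ := Ph_g hg ht0 ht hx0 hhx.le
  have hsx := Ph_ge hg hs hs1 hx0 hhx.le
  obtain ⟨hρ1, hρ2⟩ := exp_log_it m (r := r) (y := Ph hg h s x) (by rw [hr1]; exact hsx)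
  obtain ⟨ρ, hρ⟩ : ∃ ρ, ρ = Real.log^[m] (Ph hg h s x) := ⟨_, rfl⟩
  rw [← hρ] at hρ1 hρ2 ⊢
  have hr0 : 0 < r := by linarith
  have e1 := inc_mono hGm hC'1 (by linarith : 0 < a) (fun r' hr' => ha1 r' (ha11.trans hr'))
    hr2 hρ2
  have e2 := ha2 r (ha12.trans hr2)
  have e3 : G (r ^ 2) ≤ g (h x) := by
    have h1 := ha3 x hx2
    rw [Function.iterate_succ_apply, Function.iterate_succ_apply' Real.log, ← hr] at h1
    have h2 : Real.exp (2 * Real.log r) = r ^ 2 := by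
      rw [show (2 : ℝ) * Real.log r = Real.log (r ^ 2) by rw [Real.log_pow]; norm_num,
        Real.exp_log (by positivity)]
    rw [h2] at h1
    rw [hG]
    apply hg.mo _ _ _ h1.le
    apply exp_it_nonneg
    positivity
  have e4 : G r = g x := by rw [hG]; simp only; rw [hr1]
  have e5 : G ρ = g (Ph hg h s x) := by rw [hG]; simp only; rw [hρ1]
  have e6 : g x < g (h x) := hg.st _ _ hx0 hhx
  have e7 := hGp r (by linarith)
  rw [e4] at e2
  have hga := abs_nonneg (g x)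
  have hepe : (1 + |g x|) * ep g x = 1 := by
    unfold ep
    field_simp
  -- `inc ρ < ε (g (h x) - g x)`
  have e8 : (1 + |g x|) * inc G C' ρ ≤ (1 + |g x|) * (2 * inc G C' r) :=
    mul_le_mul_of_nonneg_left e1 (by linarith)
  have e9 : (1 + |g x|) * inc G C' ρ < g (h x) - g x := by
    have h1 : 4 * (1 + |g x|) * inc G C' r = 2 * ((1 + |g x|) * (2 * inc G C' r)) := by ring
    linarith
  have e10 : inc G C' ρ < ep g x * (g (h x) - g x) := by
    have h1 : (1 + |g x|) * (ep g x * (g (h x) - g x)) = g (h x) - g x := by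
      rw [← mul_assoc, hepe, one_mul]
    exact lt_of_mul_lt_mul_left (lt_of_lt_of_eq e9 h1.symm) (by linarith)
  have e11 : ep g x * (g (h x) - g x) ≤ (t - s) * (g (h x) - g x) :=
    mul_le_mul_of_nonneg_right (by linarith) (by linarith)
  have e12 : g (Real.exp^[m] (C' * ρ)) < g (Ph hg h t x) := by
    have h1 : inc G C' ρ = g (Real.exp^[m] (C' * ρ)) - G ρ := by
      unfold inc
      rw [hG]
    rw [h1, e5, hs3] at e10
    rw [ht3]
    nlinarith
  have e13 := hg.lt_of ht2 e12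
  refine lt_of_le_of_lt ?_ e13
  apply (exp_it_mono m).monotone
  exact mul_le_mul_of_nonneg_right hCC.le (by linarith)

/-- the values of `Φ (s + ε x) x` with `y ≤ Φ s x` -/
def XT {g : ℝ → ℝ} (hg : Slow2 L g) (h : ℝ → ℝ) (y z : ℝ) : Prop :=
  ∃ x, ∃ s, 0 ≤ x ∧ 0 ≤ s ∧ s + ep g x ≤ 1 ∧ y ≤ Ph hg h s x ∧ z = Ph hg h (s + ep g x) x

/-- the function all of whose iterates stay below `h` -/
noncomputable def ze {g : ℝ → ℝ} (hg : Slow2 L g) (h : ℝ → ℝ) (y : ℝ) : ℝ :=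
  sInf {z | XT hg h y z}

theorem XT_ne {g : ℝ → ℝ} (hg : Slow2 L g) {h : ℝ → ℝ} (hh : ∀ x, x ≤ h x) (y : ℝ) :
    ∃ z, XT hg h y z := by
  refine ⟨Ph hg h (0 + ep g (max y 0)) (max y 0), max y 0, 0, le_max_right _ _, le_refl _, ?_, ?_,
    rfl⟩
  · rw [zero_add]
    exact ep_le g _
  · rw [Ph_zero hg (le_max_right _ _) (hh _)]
    exact le_max_left _ _

theorem XT_bdd {g : ℝ → ℝ} (hg : Slow2 L g) {h : ℝ → ℝ} (hh : ∀ x, x ≤ h x) (y : ℝ) :
    BddBelow {z | XT hg h y z} :=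
  ⟨0, by
    rintro z ⟨x, s, hx, hs, hs1, -, rfl⟩
    have := ep_pos g x
    exact hx.trans (Ph_ge hg (by linarith) hs1 hx (hh x))⟩

theorem dze (o : Omin L) {g : ℝ → ℝ} (hg : Slow2 L g) {h : ℝ → ℝ}
    (hd : DF L (fun v : Fin 1 → ℝ => h (v 0))) (hh : ∀ x, x ≤ h x) :
    DF L (fun v : Fin 1 → ℝ => ze hg h (v 0)) := by
  unfold ze
  have hP := o.dPh hg hd
  apply o.dinf (S := fun v z => XT hg h (v 0) z)
  · unfold XT
    apply DP.ex
    apply DP.ex
    apply DP.and (o.dle (DF.const 0) (DF.var _))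
    apply DP.and (o.dle (DF.const 0) (DF.var _))
    apply DP.and (o.dle (o.dadd (DF.var _) (dep o hg.df (DF.var _))) (DF.const 1))
    apply DP.and (o.dle (DF.var _) (DF.sub2 hP (DF.var _) (DF.var _)))
    exact (DF.var _).eq (DF.sub2 hP (o.dadd (DF.var _) (dep o hg.df (DF.var _))) (DF.var _))
  · exact fun v => XT_ne hg hh (v 0)
  · exact fun v => XT_bdd hg hh (v 0)

theorem ze_mono {g : ℝ → ℝ} (hg : Slow2 L g) {h : ℝ → ℝ} (hh : ∀ x, x ≤ h x) {y y' : ℝ}
    (hy : y ≤ y') : ze hg h y ≤ ze hg h y' := by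
  apply csInf_le_csInf (XT_bdd hg hh y) (XT_ne hg hh y')
  rintro z ⟨x, s, hx, hs, hs1, h1, h2⟩
  exact ⟨x, s, hx, hs, hs1, hy.trans h1, h2⟩

theorem ze_le {g : ℝ → ℝ} (hg : Slow2 L g) {h : ℝ → ℝ} (hh : ∀ x, x ≤ h x) {s x : ℝ}
    (hx : 0 ≤ x) (hs : 0 ≤ s) (hs1 : s + ep g x ≤ 1) :
    ze hg h (Ph hg h s x) ≤ Ph hg h (s + ep g x) x :=
  csInf_le (XT_bdd hg hh _) ⟨x, s, hx, hs, hs1, le_refl _, rfl⟩

theorem ze_iter {g : ℝ → ℝ} (hg : Slow2 L g) {h : ℝ → ℝ} (hh : ∀ x, x ≤ h x) {x : ℝ}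
    (hx : 0 ≤ x) (n : ℕ) (hn : n * ep g x ≤ 1) :
    (ze hg h)^[n] x ≤ Ph hg h (n * ep g x) x := by
  have hep := ep_pos g x
  induction n with
  | zero =>
    simp only [Function.iterate_zero, id, Nat.cast_zero, zero_mul]
    rw [Ph_zero hg hx (hh x)]
  | succ n ih =>
    push_cast at hn ⊢
    rw [Function.iterate_succ_apply']
    have h1 := ih (by nlinarith)
    refine (ze_mono hg hh h1).trans ?_
    have h2 := ze_le hg hh (s := n * ep g x) hx (by positivity) (by linarith)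
    rw [show ((n : ℝ) + 1) * ep g x = n * ep g x + ep g x by ring]
    exact h2

theorem ze_above (o : Omin L) (hexp : DF L (fun v : Fin 1 → ℝ => Real.exp (v 0)))
    {g : ℝ → ℝ} (hg : Slow2 L g) {h : ℝ → ℝ} (hA : Above h) (hh : ∀ x, x ≤ h x)
    (hm : ∀ x y, x ≤ y → h x ≤ h y) : Above (ze hg h) := by
  intro m C
  obtain ⟨C', hC'⟩ : ∃ C', C' = max C 0 + 1 := ⟨_, rfl⟩
  have hC0 : 0 ≤ C' := by
    rw [hC']
    have := le_max_right C 0
    linarith
  have hCC : C < C' := by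
    rw [hC']
    have := le_max_left C 0
    linarith
  obtain ⟨X, hX⟩ := eventually_atTop.1 (path o hexp hg hA m C')
  rw [eventually_atTop]
  refine ⟨max (h X + 1) (Real.exp^[m] 1), fun y hy => ?_⟩
  have hy1 : h X + 1 ≤ y := (le_max_left _ _).trans hy
  have hy2 : Real.exp^[m] 1 ≤ y := (le_max_right _ _).trans hy
  refine lt_of_lt_of_le (lev_mono m hC0 hCC hy2 (le_refl y)) ?_
  apply le_csInf (XT_ne hg hh y)
  rintro z ⟨x, s, hx, hs, hs1, hys, rfl⟩
  have hep := ep_pos g x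
  have hxX : X ≤ x := by
    by_contra hlt
    push Not at hlt
    have h1 := Ph_le hg hs (by linarith) hx (hh x)
    have h2 := hm x X hlt.le
    linarith
  refine le_trans ?_ (hX x hxX s (s + ep g x) hs (le_refl _) hs1).le
  obtain ⟨h1, h2⟩ := exp_log_it m hy2
  obtain ⟨h3, h4⟩ := exp_log_it m (r := Real.log^[m] y) (y := Ph hg h s x) (by rw [h1]; exact hys)
  apply (exp_it_mono m).monotone
  exact mul_le_mul_of_nonneg_left h4 hC0

/-- **one function for all iterates** -/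
theorem inf_root (o : Omin L) (hexp : DF L (fun v : Fin 1 → ℝ => Real.exp (v 0)))
    {g : ℝ → ℝ} (hg : Slow2 L g) {h : ℝ → ℝ} (hd : DF L (fun v : Fin 1 → ℝ => h (v 0)))
    (hA : Above h) :
    ∃ χ : ℝ → ℝ, DF L (fun v : Fin 1 → ℝ => χ (v 0)) ∧ Above χ ∧ Monotone χ ∧
      ∀ n : ℕ, ∀ᶠ x in atTop, χ^[n] x ≤ h x := by
  obtain ⟨a, ha⟩ := eventually_atTop.1 (hA 0 1)
  have ha' : ∀ y, a ≤ y → y < h y := by
    intro y hy
    have := ha y hy
    simpa using this
  have hmg := hmin_ge ha'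
  refine ⟨ze hg (hmin h a), dze o hg (o.dhmin hd ha') hmg,
    ze_above o hexp hg (hmin_above hA a) hmg (fun x y hxy => hmin_mono ha' hxy),
    fun x y hxy => ze_mono hg hmg hxy, ?_⟩
  intro n
  filter_upwards [eventually_ge_atTop (max a 0), hg.tt.eventually_ge_atTop (n : ℝ)] with x hx hgx
  have hxa : a ≤ x := (le_max_left _ _).trans hx
  have hx0 : 0 ≤ x := (le_max_right _ _).trans hx
  have hn : n * ep g x ≤ 1 := by
    unfold ep
    have h1 := le_abs_self (g x)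
    have h2 := abs_nonneg (g x)
    rw [← div_eq_mul_inv, div_le_one (by linarith)]
    linarith
  have h1 := ze_iter hg hmg hx0 n hn
  have h2 := Ph_le hg (t := n * ep g x) (by have := ep_pos g x; positivity) hn hx0 (hmg x)
  exact (h1.trans h2).trans (hmin_le ha' hxa)

end Pool.Agent.Work.MP_973fa8.h22
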