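import Pool.Agent.Work.MP_973fa8_helper46.Fin
import Pool.Agent.Work.MP_973fa8_h22.Full

/-! # MP_973fa8: functions all of whose iterates are exponentially bounded have no level -/

set_option autoImplicit false

namespace Pool.Agent.Work.MP_973fa8.h22

open Set Filter Topology Pool.Agent.Work.MP_973fa8.helper46

/-- a function above level zero with a level has second iterate above `exp` -/
theorem lev_two {χ : ℝ → ℝ} (hA : Above χ) (hl0 : Lev χ) :
    ∀ᶠ x in atTop, Real.exp x < χ (χ x) := by
  obtain ⟨M, N, hl⟩ := hl0
  have hx : ∀ᶠ x in atTop, x < χ x := by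
    filter_upwards [hA 0 1] with x hx
    simpa using hx
  have htt : Tendsto χ atTop atTop :=
    tendsto_atTop_mono' _ (hx.mono (fun x h => h.le)) tendsto_id
  have hlN := log_it_tt N
  have hpos : ∀ᶠ x in atTop, 0 < Real.log^[N] x := hlN.eventually_gt_atTop 0
  rcases Nat.lt_or_ge N M with hNM | hNM
  · -- `M ≥ N + 1`
    obtain ⟨k, hk⟩ : ∃ k, M = N + 1 + k := ⟨M - (N + 1), by omega⟩
    have h3 : ∀ᶠ x in atTop, Real.exp^[M] (1 / 2 * Real.log^[N] x) ≤ χ x := by
      have h4 : ∀ᶠ x in atTop, 1 / 2 < Real.log^[M] (χ x) / Real.log^[N] x :=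
        hl.eventually_const_lt (by norm_num)
      filter_upwards [h4, hpos, htt.eventually (ev_inv M)] with x h5 h6 h7
      rw [lt_div_iff₀ h6] at h5
      rw [← h7]
      exact (exp_it_mono M).monotone h5.le
    have h8 : ∀ᶠ x in atTop, Real.exp^[N + 1] (1 / 2 * Real.log^[N] x) ≤ χ x := by
      have h9 : Tendsto (fun x => 1 / 2 * Real.log^[N] x) atTop atTop :=
        hlN.const_mul_atTop (by norm_num)
      have h10 : ∀ᶠ r : ℝ in atTop, r ≤ Real.exp^[k] r := by
        filter_upwards [eventually_ge_atTop 0] with r _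
        clear hk h3 h9
        induction k with
        | zero => exact le_refl _
        | succ k ih =>
          rw [Function.iterate_succ_apply']
          have := Real.add_one_le_exp (Real.exp^[k] r)
          linarith
      filter_upwards [h3, h9.eventually h10] with x h11 h12
      refine le_trans ?_ h11
      rw [hk, Function.iterate_add_apply Real.exp (N + 1) k]
      exact (exp_it_mono (N + 1)).monotone h12
    -- growth
    have h13 : ∀ᶠ r : ℝ in atTop, r < 1 / 2 * Real.exp (1 / 2 * r) := by
      have h14 := (Real.isLittleO_pow_exp_atTop (n := 1)).bound (c := 1 / 8) (by norm_num)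
      have h15 : Tendsto (fun r : ℝ => 1 / 2 * r) atTop atTop :=
        tendsto_id.const_mul_atTop (by norm_num)
      filter_upwards [h15.eventually h14, eventually_gt_atTop 0] with r hr hr0
      rw [pow_one, Real.norm_eq_abs, Real.norm_eq_abs, abs_of_pos (by linarith),
        abs_of_pos (Real.exp_pos _)] at hr
      linarith
    have h16 : ∀ᶠ x in atTop, Real.exp x < χ (χ x) := by
      filter_upwards [h8, htt.eventually h8, hlN.eventually h13, ev_inv N, hpos,
        htt.eventually (ev_inv N)] with x h17 h18 h19 h20 h21 h22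
      refine lt_of_lt_of_le ?_ h18
      have h23 : Real.exp (1 / 2 * Real.log^[N] x) ≤ Real.log^[N] (χ x) := by
        have h24 := h17
        rw [Function.iterate_succ_apply, ← h22] at h24
        exact (exp_it_mono N).le_iff_le.1 h24
      have h26 : Real.log^[N] x < 1 / 2 * Real.log^[N] (χ x) := by linarith
      have h27 := exp_it_mono (N + 1) h26
      rw [Function.iterate_succ_apply' Real.exp N (Real.log^[N] x), h20] at h27
      exact h27
    exact h16
  · -- `M ≤ N`
    obtain ⟨k, hk⟩ : ∃ k, N = k + M := ⟨N - M, by omega⟩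
    have h3 : ∀ᶠ x in atTop, Real.log^[M] (χ x) ≤ 2 * Real.log^[N] x := by
      have h4 : ∀ᶠ x in atTop, Real.log^[M] (χ x) / Real.log^[N] x < 2 :=
        hl.eventually_lt_const (by norm_num)
      filter_upwards [h4, hpos] with x h5 h6
      rw [div_lt_iff₀ h6] at h5
      exact h5.le
    have h5 : ∀ᶠ r : ℝ in atTop, Real.log^[k] r ≤ r := by
      rw [eventually_atTop]
      refine ⟨Real.exp^[k] 1, fun r hr => ?_⟩
      obtain ⟨h6, h7⟩ := exp_log_it k hr
      have h8 : Real.log^[k] r ≤ Real.exp^[k] (Real.log^[k] r) := by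
        generalize Real.log^[k] r = s
        clear h6 h7 hr hk
        induction k with
        | zero => exact le_refl _
        | succ k ih =>
          rw [Function.iterate_succ_apply']
          have := Real.add_one_le_exp (Real.exp^[k] s)
          linarith
      rw [h6] at h8
      exact h8
    have h9 : ∀ᶠ x in atTop, χ x ≤ Real.exp^[M] (2 * Real.log^[M] x) := by
      filter_upwards [h3, (log_it_tt M).eventually h5, htt.eventually (ev_inv M)] with x h10 h11 h12
      rw [← h12]
      apply (exp_it_mono M).monotone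
      rw [hk, Function.iterate_add_apply] at h10
      linarith
    exfalso
    obtain ⟨x, hx1, hx2⟩ := (h9.and (hA M 2)).exists
    linarith

/-- a function above level zero all of whose iterates are below one exponentially bounded
function has no level -/
theorem no_lev_it {u h : ℝ → ℝ} (hA : Above u) (hn : ∀ n : ℕ, ∀ᶠ x in atTop, u^[n] x ≤ h x)
    {K : ℕ} (hK : h =O[atTop] (Real.exp^[K])) : ¬ Lev u := by
  intro hl
  have h1 := lev_two hA hl
  have hx : ∀ᶠ x in atTop, x < u x := by
    filter_upwards [hA 0 1] with x hx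
    simpa using hx
  obtain ⟨X, hX⟩ := eventually_atTop.1 (h1.and hx)
  have h2 : ∀ j : ℕ, ∀ x, X ≤ x → X ≤ u^[2 * j] x ∧ Real.exp^[j] x ≤ u^[2 * j] x := by
    intro j
    induction j with
    | zero => exact fun x hx => ⟨hx, le_rfl⟩
    | succ j ih =>
      intro x hx
      obtain ⟨h3, h4⟩ := ih x hx
      have h5 : u^[2 * (j + 1)] x = u (u (u^[2 * j] x)) := by
        rw [show 2 * (j + 1) = 2 * j + 1 + 1 by ring, Function.iterate_succ_apply',
          Function.iterate_succ_apply']
      have h6 := hX _ h3
      have h7 := hX _ (h3.trans h6.2.le)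
      rw [h5, Function.iterate_succ_apply']
      exact ⟨h3.trans (h6.2.le.trans h7.2.le), (Real.exp_le_exp.2 h4).trans h6.1.le⟩
  obtain ⟨C, hC⟩ := hK.bound
  have h8 := above_exp 0 C
  obtain ⟨x, h3, h4, h5, h6, h7⟩ := ((hn (2 * (K + 1))).and (hC.and
    (((exp_it_tt K).eventually h8).and ((eventually_ge_atTop X).and
      ((exp_it_tt K).eventually_gt_atTop 0))))).exists
  have h9 := (h2 (K + 1) x h6).2
  rw [Function.iterate_succ_apply'] at h9
  rw [Real.norm_eq_abs, Real.norm_eq_abs, abs_of_pos h7] at h4
  have h10 := le_abs_self (h x)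
  have h11 : C * Real.exp^[K] x < Real.exp (Real.exp^[K] x) := by simpa using h5
  linarith

end Pool.Agent.Work.MP_973fa8.h22
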