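import Pool.Agent.Work.MP_973fa8_helper46.Fin

/-! # MP_973fa8: autonomous first order equations over an exponentially bounded structure -/

set_option autoImplicit false

namespace Pool.Agent.Work.MP_973fa8.h22

open Set Filter Topology Pool.Agent.Work.MP_973fa8.helper46

variable {L : FirstOrder.Language.{0, 0}} [L.Structure ℝ] {α : Type}

theorem dlog (o : Omin L) (hexp : DF L (fun v : Fin 1 → ℝ => Real.exp (v 0))) :
    DF L (fun v : Fin 1 → ℝ => Real.log (v 0)) := by
  apply DF.of_graph1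
  have h1 : DP L (fun v : Fin 2 → ℝ =>
      (v 0 = 0 ∧ v 1 = 0) ∨ (¬ v 0 = 0 ∧ Real.exp (v 1) = |v 0|)) := by
    apply DP.or
    · exact DP.and ((DF.var _).eq (DF.const 0)) ((DF.var _).eq (DF.const 0))
    · exact DP.and ((DF.var _).eq (DF.const 0)).not ((DF.sub1 hexp (DF.var _)).eq
        (o.dabs (DF.var _)))
  refine h1.congr (fun v => ?_)
  constructor
  · rintro (⟨h2, h3⟩ | ⟨h2, h3⟩)
    · rw [h2, h3, Real.log_zero]
    · rw [← Real.log_abs, ← h3, Real.log_exp]
  · intro h2
    by_cases h3 : v 0 = 0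
    · left
      refine ⟨h3, ?_⟩
      rw [← h2, h3, Real.log_zero]
    · right
      refine ⟨h3, ?_⟩
      rw [← h2, Real.exp_log_eq_abs h3]

/-- the product `u * log u * ⋯` of `k` factors -/
noncomputable def PP : ℕ → ℝ → ℝ
  | 0, _ => 1
  | k + 1, u => PP k u * Real.log^[k] u

theorem PP_succ (k : ℕ) (u : ℝ) : PP (k + 1) u = PP k u * Real.log^[k] u := rfl

theorem PP_succ' (k : ℕ) (u : ℝ) : PP (k + 1) u = u * PP k (Real.log u) := by
  induction k with
  | zero => simp [PP]
  | succ k ih =>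
    rw [PP_succ, ih, PP_succ, Function.iterate_succ_apply]
    ring

theorem PP_pos {k : ℕ} {u : ℝ} (h : ∀ i, i ≤ k → 1 ≤ Real.log^[i] u) :
    ∀ j, j ≤ k → 0 < PP j u := by
  intro j
  induction j with
  | zero => exact fun _ => one_pos
  | succ j ih =>
    intro hj
    rw [PP_succ]
    exact mul_pos (ih (by omega)) (lt_of_lt_of_le one_pos (h j (by omega)))

theorem ev_one (k : ℕ) : ∀ᶠ u : ℝ in atTop, ∀ i, i ≤ k → 1 ≤ Real.log^[i] u := by
  have h1 := (Filter.eventually_all_finite (Set.finite_Iic k) (l := (atTop : Filter ℝ))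
    (p := fun i u => 1 ≤ Real.log^[i] u)).2 (fun i _ => (log_it_tt i).eventually_ge_atTop 1)
  filter_upwards [h1] with u hu i hi
  exact hu i hi

theorem hd_log (k : ℕ) {v : ℝ} (hv : ∀ i, i < k → 0 < Real.log^[i] v) :
    HasDerivAt (Real.log^[k]) (PP k v)⁻¹ v := by
  induction k with
  | zero =>
    have h1 : (PP 0 v)⁻¹ = 1 := by simp [PP]
    rw [h1]
    exact hasDerivAt_id v
  | succ k ih =>
    have h1 := ih (fun i hi => hv i (by omega))
    have h2 := h1.log (hv k (by omega)).ne'
    have h3 : Real.log^[k + 1] = fun y => Real.log (Real.log^[k] y) := by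
      funext y
      rw [Function.iterate_succ_apply']
    rw [h3, PP_succ, mul_inv, ← div_eq_mul_inv]
    exact h2

theorem hd_comp {F y : ℝ → ℝ} {x : ℝ} (hy : HasDerivAt y (F (y x)) x) (k : ℕ)
    (hv : ∀ i, i < k → 0 < Real.log^[i] (y x)) :
    HasDerivAt (fun x => Real.log^[k] (y x)) ((PP k (y x))⁻¹ * F (y x)) x :=
  (hd_log k hv).comp x hy

theorem mvt_le {z z' : ℝ → ℝ} {b C : ℝ} (h : ∀ x, b ≤ x → HasDerivAt z (z' x) x)
    (hC : ∀ x, b ≤ x → z' x ≤ C) {x : ℝ} (hx : b ≤ x) : z x ≤ z b + C * (x - b) := by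
  rcases hx.eq_or_lt with h1 | h1
  · rw [← h1]
    simp
  · obtain ⟨c, hc, hc2⟩ := exists_hasDerivAt_eq_slope z z' h1
      (fun t ht => (h t ht.1).continuousAt.continuousWithinAt) (fun t ht => h t ht.1.le)
    have h2 := hC c hc.1.le
    rw [hc2, div_le_iff₀ (by linarith)] at h2
    linarith

theorem mvt_ge {z z' : ℝ → ℝ} {b C : ℝ} (h : ∀ x, b ≤ x → HasDerivAt z (z' x) x)
    (hC : ∀ x, b ≤ x → C ≤ z' x) {x : ℝ} (hx : b ≤ x) : z b + C * (x - b) ≤ z x := by
  have h1 := mvt_le (z := fun x => - z x) (z' := fun x => - z' x) (C := -C)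
    (fun x hx => (h x hx).neg) (fun x hx => neg_le_neg (hC x hx)) hx
  linarith

theorem ode_up {F y : ℝ → ℝ} {a : ℝ} (hy : ∀ x, a ≤ x → HasDerivAt y (F (y x)) x)
    (htt : Tendsto y atTop atTop) (k : ℕ) (hF : ∀ᶠ u in atTop, F u ≤ PP k u) :
    y =O[atTop] (Real.exp^[k + 1]) := by
  obtain ⟨b, hb⟩ := eventually_atTop.1 ((htt.eventually (ev_one k)).and ((htt.eventually hF).and
    (eventually_ge_atTop a)))
  have h1 : ∀ x, b ≤ x → HasDerivAt (fun x => Real.log^[k] (y x))
      ((PP k (y x))⁻¹ * F (y x)) x := fun x hx =>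
    hd_comp (hy x (hb x hx).2.2) k (fun i hi => lt_of_lt_of_le one_pos ((hb x hx).1 i hi.le))
  have h2 : ∀ x, b ≤ x → (PP k (y x))⁻¹ * F (y x) ≤ 1 := by
    intro x hx
    rw [inv_mul_le_iff₀ (PP_pos (hb x hx).1 k le_rfl), mul_one]
    exact (hb x hx).2.1
  have h3 : ∀ᶠ x : ℝ in atTop, Real.log^[k] (y b) + 1 * (x - b) ≤ Real.exp x := by
    have h4 := above_exp 0 2
    filter_upwards [h4, eventually_ge_atTop (Real.log^[k] (y b) - b)] with x hx hx2
    have h5 : 2 * x < Real.exp x := by simpa using hx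
    linarith
  refine Asymptotics.IsBigO.of_bound 1 ?_
  filter_upwards [eventually_ge_atTop b, h3, htt.eventually (ev_inv k), htt.eventually_gt_atTop 0]
    with x hx hx2 hx3 hx4
  have h4 := mvt_le h1 h2 hx
  rw [one_mul, Real.norm_eq_abs, Real.norm_eq_abs, abs_of_pos hx4]
  refine le_trans ?_ (le_abs_self _)
  rw [← hx3, Function.iterate_succ_apply]
  exact (exp_it_mono k).monotone (h4.trans hx2)

theorem ode_blow {F y : ℝ → ℝ} {a : ℝ} (hy : ∀ x, a ≤ x → HasDerivAt y (F (y x)) x)
    (htt : Tendsto y atTop atTop) (k : ℕ)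
    (hF : ∀ᶠ u in atTop, PP k u * (Real.log^[k] u) ^ 2 ≤ F u) : False := by
  obtain ⟨b, hb⟩ := eventually_atTop.1 ((htt.eventually (ev_one k)).and ((htt.eventually hF).and
    (eventually_ge_atTop a)))
  have h0 : ∀ x, b ≤ x → 0 < Real.log^[k] (y x) := fun x hx =>
    lt_of_lt_of_le one_pos ((hb x hx).1 k le_rfl)
  have h1 : ∀ x, b ≤ x → HasDerivAt (fun x => (Real.log^[k] (y x))⁻¹)
      (-((PP k (y x))⁻¹ * F (y x)) / (Real.log^[k] (y x)) ^ 2) x := fun x hx =>
    (hd_comp (hy x (hb x hx).2.2) k (fun i hi =>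
      lt_of_lt_of_le one_pos ((hb x hx).1 i hi.le))).fun_inv (h0 x hx).ne'
  have h2 : ∀ x, b ≤ x → -((PP k (y x))⁻¹ * F (y x)) / (Real.log^[k] (y x)) ^ 2 ≤ -1 := by
    intro x hx
    have h3 := PP_pos (hb x hx).1 k le_rfl
    have h4 := h0 x hx
    rw [div_le_iff₀ (by positivity)]
    have h5 : (Real.log^[k] (y x)) ^ 2 ≤ (PP k (y x))⁻¹ * F (y x) := by
      rw [le_inv_mul_iff₀ h3]
      exact (hb x hx).2.1
    linarith
  have h3 := h0 b le_rfl
  have h4 : 0 < (Real.log^[k] (y b))⁻¹ := inv_pos.2 h3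
  have h5 := mvt_le h1 h2 (x := b + (Real.log^[k] (y b))⁻¹) (by linarith)
  have h6 : 0 < (Real.log^[k] (y (b + (Real.log^[k] (y b))⁻¹)))⁻¹ :=
    inv_pos.2 (h0 _ (by linarith))
  have h7 : (Real.log^[k] (y b))⁻¹ + -1 * (b + (Real.log^[k] (y b))⁻¹ - b) = 0 := by ring
  linarith

/-- iterating `q u F (log u) ≤ F u` -/
theorem it_q {F : ℝ → ℝ} {q R : ℝ} (hR : 0 ≤ R) (hq : 0 ≤ q)
    (hF : ∀ u, R ≤ u → q * (u * F (Real.log u)) ≤ F u) (k : ℕ) :
    ∀ v, (∀ i, i < k → R ≤ Real.log^[i] v) →
      q ^ k * (PP k v * F (Real.log^[k] v)) ≤ F v := by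
  induction k with
  | zero =>
    intro v _
    simp [PP]
  | succ k ih =>
    intro v hv
    have h1 : R ≤ v := hv 0 (by omega)
    have h2 := ih (Real.log v) (fun i hi => by
      have := hv (i + 1) (by omega)
      rwa [Function.iterate_succ_apply] at this)
    have h3 := mul_le_mul_of_nonneg_left h2 (mul_nonneg hq (hR.trans h1))
    rw [PP_succ', Function.iterate_succ_apply]
    have h4 := hF v h1
    calc q ^ (k + 1) * (v * PP k (Real.log v) * F (Real.log^[k] (Real.log v)))
        = q * v * (q ^ k * (PP k (Real.log v) * F (Real.log^[k] (Real.log v)))) := by ring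
      _ ≤ q * v * F (Real.log v) := h3
      _ ≤ F v := by linarith

theorem exp_it_ge {R : ℝ} (k : ℕ) : R + k ≤ Real.exp^[k] R := by
  induction k with
  | zero => simp
  | succ k ih =>
    rw [Function.iterate_succ_apply']
    have := Real.add_one_le_exp (Real.exp^[k] R)
    push_cast
    linarith

theorem ode_q {F y : ℝ → ℝ} {a : ℝ} (hy : ∀ x, a ≤ x → HasDerivAt y (F (y x)) x)
    (htt : Tendsto y atTop atTop) {q : ℝ} (hq : 1 < q) (hF1 : ∀ᶠ u in atTop, u ≤ F u)
    (hF : ∀ᶠ u in atTop, q * (u * F (Real.log u)) ≤ F u) : False := by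
  obtain ⟨R, hR⟩ := eventually_atTop.1 (hF1.and (hF.and (eventually_ge_atTop 1)))
  have hR1 : 1 ≤ R := (hR R le_rfl).2.2
  obtain ⟨b, hb⟩ := eventually_atTop.1 ((htt.eventually_ge_atTop R).and (eventually_ge_atTop a))
  have hd : ∀ x, b ≤ x → HasDerivAt y (F (y x)) x := fun x hx => hy x (hb x hx).2
  have hmono : ∀ x x', b ≤ x → x ≤ x' → y x ≤ y x' := by
    intro x x' hx hxx
    have h1 := mvt_ge (z := y) (z' := fun x => F (y x)) (b := x) (C := 0)
      (fun t ht => hd t (hx.trans ht)) (fun t ht => by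
        have h2 := (hb t (hx.trans ht)).1
        have h3 := (hR _ h2).1
        linarith) hxx
    linarith
  have step : ∀ (k : ℕ) (x : ℝ), b ≤ x → Real.exp^[k] R ≤ y x →
      Real.exp^[k + 1] R ≤ y (x + R * (1 / q) ^ k) := by
    intro k x hx hk
    have hlow : ∀ t, x ≤ t → ∀ i, i ≤ k → R ≤ Real.log^[i] (y t) := by
      intro t ht i hi
      obtain ⟨j, hj⟩ : ∃ j, k = i + j := ⟨k - i, by omega⟩
      have h1 : Real.exp^[i] (Real.exp^[j] R) ≤ y t := by
        rw [← Function.iterate_add_apply, ← hj]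
        exact hk.trans (hmono x t hx ht)
      have h2 := (exp_log_it i h1).2
      have h3 := exp_it_ge (R := R) j
      have h4 : (0 : ℝ) ≤ j := Nat.cast_nonneg j
      linarith
    have hdd : ∀ t, x ≤ t → HasDerivAt (fun x => Real.log^[k + 1] (y x))
        ((PP (k + 1) (y t))⁻¹ * F (y t)) t := fun t ht =>
      hd_comp (hd t (hx.trans ht)) (k + 1) (fun i hi => by
        have := hlow t ht i (by omega)
        linarith)
    have hdl : ∀ t, x ≤ t → q ^ k ≤ (PP (k + 1) (y t))⁻¹ * F (y t) := by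
      intro t ht
      have h1 : ∀ i, i ≤ k → 1 ≤ Real.log^[i] (y t) := fun i hi => hR1.trans (hlow t ht i hi)
      have h2 := PP_pos h1 k le_rfl
      have h3 : 0 < PP (k + 1) (y t) := by
        rw [PP_succ]
        exact mul_pos h2 (lt_of_lt_of_le one_pos (h1 k le_rfl))
      rw [le_inv_mul_iff₀ h3]
      have h4 := it_q (F := F) (q := q) (R := R) (by linarith) (by linarith)
        (fun u hu => (hR u hu).2.1) k (y t) (fun i hi => hlow t ht i hi.le)
      have h5 := (hR _ (hlow t ht k le_rfl)).1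
      have h6 : PP (k + 1) (y t) * q ^ k ≤
          q ^ k * (PP k (y t) * F (Real.log^[k] (y t))) := by
        rw [PP_succ]
        have h7 : PP k (y t) * Real.log^[k] (y t) ≤ PP k (y t) * F (Real.log^[k] (y t)) :=
          mul_le_mul_of_nonneg_left h5 h2.le
        have h8 : 0 ≤ q ^ k := by positivity
        have h9 := mul_le_mul_of_nonneg_left h7 h8
        linarith
      linarith
    have hq0 : 0 < q := by linarith
    have hx' : x ≤ x + R * (1 / q) ^ k := by
      have : 0 ≤ R * (1 / q) ^ k := by positivity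
      linarith
    have h1 := mvt_ge hdd hdl hx'
    have hlog : ∀ t, x ≤ t → Real.exp^[k + 1] (Real.log^[k + 1] (y t)) = y t ∧
        Real.log R ≤ Real.log^[k + 1] (y t) := by
      intro t ht
      apply exp_log_it
      rw [Function.iterate_succ_apply, Real.exp_log (by linarith)]
      exact hk.trans (hmono x t hx ht)
    have h2 : q ^ k * (x + R * (1 / q) ^ k - x) = R := by
      have h3 : q ^ k * (1 / q) ^ k = 1 := by
        rw [← mul_pow, mul_one_div_cancel hq0.ne', one_pow]
      calc q ^ k * (x + R * (1 / q) ^ k - x) = R * (q ^ k * (1 / q) ^ k) := by ring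
        _ = R := by rw [h3, mul_one]
    rw [h2] at h1
    have h3 := (hlog x le_rfl).2
    have h4 := Real.log_nonneg hR1
    have h5 := (hlog _ hx').1
    rw [← h5]
    apply (exp_it_mono (k + 1)).monotone
    linarith
  have hq0 : 0 < q := by linarith
  have hq1 : 0 < q - 1 := by linarith
  have all : ∀ k : ℕ, Real.exp^[k] R ≤ y (b + R * (q / (q - 1)) * (1 - (1 / q) ^ k)) ∧
      b ≤ b + R * (q / (q - 1)) * (1 - (1 / q) ^ k) := by
    intro k
    induction k with
    | zero =>
      simp only [Function.iterate_zero, id, pow_zero, sub_self, mul_zero, add_zero, le_refl,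
        and_true]
      exact (hb b le_rfl).1
    | succ k ih =>
      have h1 := step k _ ih.2 ih.1
      have h2 : b + R * (q / (q - 1)) * (1 - (1 / q) ^ k) + R * (1 / q) ^ k =
          b + R * (q / (q - 1)) * (1 - (1 / q) ^ (k + 1)) := by
        rw [pow_succ]
        field_simp
        ring
      rw [h2] at h1
      refine ⟨h1, ?_⟩
      have h3 : (1 / q) ^ (k + 1) ≤ 1 := pow_le_one₀ (by positivity) (by
        rw [div_le_one hq0]
        exact hq.le)
      have h4 : 0 ≤ R * (q / (q - 1)) * (1 - (1 / q) ^ (k + 1)) :=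
        mul_nonneg (by positivity) (by linarith)
      linarith
  obtain ⟨n, hn⟩ := exists_nat_gt (y (b + R * (q / (q - 1))))
  obtain ⟨h1, h2⟩ := all n
  have h3 : y (b + R * (q / (q - 1)) * (1 - (1 / q) ^ n)) ≤ y (b + R * (q / (q - 1))) := by
    apply hmono _ _ h2
    have h4 : 0 ≤ (1 / q) ^ n := by positivity
    have h5 : R * (q / (q - 1)) * (1 - (1 / q) ^ n) ≤ R * (q / (q - 1)) * 1 :=
      mul_le_mul_of_nonneg_left (by linarith) (by positivity)
    linarith
  have h4 := exp_it_ge (R := R) n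
  linarith

/-- in an exponentially bounded structure a definable function which tends to infinity is above
some iterated logarithm -/
theorem slow_lb (o : Omin L)
    (hb : ∀ f : ℝ → ℝ, DF L (fun v : Fin 1 → ℝ => f (v 0)) → ∃ N : ℕ, f =O[atTop] (Real.exp^[N]))
    {s : ℝ → ℝ} (hs : DF L (fun v : Fin 1 → ℝ => s (v 0))) (htt : Tendsto s atTop atTop) :
    ∃ k : ℕ, ∀ᶠ u in atTop, Real.log^[k] u ≤ s u := by
  have hne : ∀ v : ℝ, ∃ z, 0 ≤ z ∧ ∀ u', z ≤ u' → v < s u' := by
    intro v
    obtain ⟨A, hA⟩ := eventually_atTop.1 (htt.eventually_gt_atTop v)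
    exact ⟨max A 0, le_max_right _ _, fun u' hu' => hA u' ((le_max_left _ _).trans hu')⟩
  have hbd : ∀ v : ℝ, BddBelow {z | 0 ≤ z ∧ ∀ u', z ≤ u' → v < s u'} := fun v =>
    ⟨0, fun z hz => hz.1⟩
  have hT : DF L (fun v : Fin 1 → ℝ => sInf {z | 0 ≤ z ∧ ∀ u', z ≤ u' → v 0 < s u'}) := by
    apply o.dinf (S := fun v z => 0 ≤ z ∧ ∀ u', z ≤ u' → v 0 < s u')
    · apply DP.and (o.dle (DF.const 0) (DF.var _))
      apply DP.all
      apply DP.imp (o.dle (DF.var _) (DF.var _))
      exact o.dlt (DF.var _) (DF.sub1 hs (DF.var _))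
    · exact fun v => hne (v 0)
    · exact fun v => hbd (v 0)
  obtain ⟨N, hN⟩ := hb (fun v => sInf {z | 0 ≤ z ∧ ∀ u', z ≤ u' → v < s u'}) hT
  obtain ⟨C, hC⟩ := hN.bound
  have h1 : ∀ᶠ v : ℝ in atTop, sInf {z | 0 ≤ z ∧ ∀ u', z ≤ u' → v < s u'} <
      Real.exp^[N + 1] v := by
    filter_upwards [hC, (exp_it_tt N).eventually (above_exp 0 C),
      (exp_it_tt N).eventually_gt_atTop 0] with v hv hv2 hv3
    rw [Real.norm_eq_abs, Real.norm_eq_abs, abs_of_pos hv3] at hv
    have h2 : C * Real.exp^[N] v < Real.exp (Real.exp^[N] v) := by simpa using hv2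
    rw [Function.iterate_succ_apply']
    exact lt_of_le_of_lt (le_abs_self _) (lt_of_le_of_lt hv h2)
  refine ⟨N + 1, ?_⟩
  filter_upwards [(log_it_tt (N + 1)).eventually h1, ev_inv (N + 1)] with u hu hu2
  rw [hu2] at hu
  obtain ⟨z, hz, hzu⟩ := exists_lt_of_csInf_lt (hne _) hu
  exact (hz.2 u hzu.le).le

theorem ode_pos (o : Omin L) {F : ℝ → ℝ} (hF : DF L (fun v : Fin 1 → ℝ => F (v 0)))
    {y : ℝ → ℝ} {a : ℝ} (hy : ∀ x, a ≤ x → HasDerivAt y (F (y x)) x)
    (htt : Tendsto y atTop atTop) : ∀ᶠ u in atTop, 0 < F u := by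
  rcases o.dich (P := fun u => 0 < F u) (o.dlt (DF.const 0) hF) with h1 | h1
  · exact h1
  · exfalso
    obtain ⟨b, hb⟩ := eventually_atTop.1 ((htt.eventually h1).and (eventually_ge_atTop a))
    obtain ⟨x, hx, hx2⟩ := ((htt.eventually_gt_atTop (y b)).and (eventually_ge_atTop b)).exists
    have h2 := mvt_le (z := y) (z' := fun x => F (y x)) (b := b) (C := 0)
      (fun t ht => hy t (hb t ht).2) (fun t ht => not_lt.1 (hb t ht).1) hx2
    linarith

theorem ode_big (o : Omin L) {F : ℝ → ℝ} (hF : DF L (fun v : Fin 1 → ℝ => F (v 0)))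
    (hpos : ∀ᶠ u in atTop, 0 < F u) {A : ℝ} (hA : 0 < A)
    (h : ∀ᶠ u in atTop, A * (u * F (Real.log u)) ≤ F u) (K : ℝ) : ∀ᶠ u in atTop, K * u ≤ F u := by
  have h1 : ∀ K : ℝ, ∀ᶠ u in atTop, K ≤ F u := by
    intro K
    rcases o.dich (P := fun u => K ≤ F u) (o.dle (DF.const K) hF) with h2 | h2
    · exact h2
    · exfalso
      obtain ⟨v, hv⟩ := eventually_atTop.1 (hpos.and (h.and (h2.and
        (eventually_ge_atTop (1 / A)))))
      have hstep : ∀ w, v ≤ w → A * Real.exp w * F w ≤ F (Real.exp w) := by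
        intro w hw
        have h3 := Real.add_one_le_exp w
        have h4 := (hv (Real.exp w) (by linarith)).2.1
        rw [Real.log_exp] at h4
        linarith
      have hall : ∀ n : ℕ, v ≤ Real.exp^[n] v ∧ F v ≤ F (Real.exp^[n] v) := by
        intro n
        induction n with
        | zero => exact ⟨le_rfl, le_rfl⟩
        | succ n ih =>
          rw [Function.iterate_succ_apply']
          have h3 := Real.add_one_le_exp (Real.exp^[n] v)
          refine ⟨by linarith [ih.1], ih.2.trans ?_⟩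
          refine le_trans ?_ (hstep _ ih.1)
          have h4 := (hv _ ih.1).1
          have h5 := (hv _ ih.1).2.2.2
          have h6 : 1 ≤ A * Real.exp (Real.exp^[n] v) := by
            rw [div_le_iff₀ hA] at h5
            have h7 : A * Real.exp^[n] v ≤ A * Real.exp (Real.exp^[n] v) :=
              mul_le_mul_of_nonneg_left (by linarith) hA.le
            linarith
          nlinarith
      have hv0 := (hv v le_rfl).1
      obtain ⟨n, hn⟩ := exists_nat_gt (K / (A * F v) - v)
      obtain ⟨h3, h4⟩ := hall n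
      have h5 := hstep _ h3
      rw [← Function.iterate_succ_apply' Real.exp n v] at h5
      have h6 := (hv _ (hall (n + 1)).1).2.2.1
      push Not at h6
      have h7 := exp_it_ge (R := v) (n + 1)
      push_cast at h7
      have h8 : K / (A * F v) ≤ Real.exp^[n + 1] v := by linarith
      rw [div_le_iff₀ (by positivity)] at h8
      have h9 : A * Real.exp^[n + 1] v * F v ≤ A * Real.exp^[n + 1] v * F (Real.exp^[n] v) := by
        apply mul_le_mul_of_nonneg_left h4
        have h10 := (hall (n + 1)).1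
        have h11 := (hv v le_rfl).2.2.2
        have h12 : 0 < 1 / A := by positivity
        exact mul_nonneg hA.le (by linarith)
      linarith
  filter_upwards [h, Real.tendsto_log_atTop.eventually (h1 (K / A)), eventually_gt_atTop 0] with
    u h2 h3 h4
  refine le_trans ?_ h2
  rw [div_le_iff₀ hA] at h3
  nlinarith

theorem ode_low {F y : ℝ → ℝ} {a : ℝ} (hy : ∀ x, a ≤ x → HasDerivAt y (F (y x)) x)
    (htt : Tendsto y atTop atTop) (k : ℕ) (hF : ∀ᶠ u in atTop, 2 * PP k u ≤ F u) :
    ∀ᶠ x in atTop, Real.exp^[k] x ≤ y x := by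
  obtain ⟨b, hb⟩ := eventually_atTop.1 ((htt.eventually (ev_one k)).and ((htt.eventually hF).and
    (eventually_ge_atTop a)))
  have h1 : ∀ x, b ≤ x → HasDerivAt (fun x => Real.log^[k] (y x))
      ((PP k (y x))⁻¹ * F (y x)) x := fun x hx =>
    hd_comp (hy x (hb x hx).2.2) k (fun i hi => lt_of_lt_of_le one_pos ((hb x hx).1 i hi.le))
  have h2 : ∀ x, b ≤ x → 2 ≤ (PP k (y x))⁻¹ * F (y x) := by
    intro x hx
    rw [le_inv_mul_iff₀ (PP_pos (hb x hx).1 k le_rfl), mul_comm]
    exact (hb x hx).2.1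
  filter_upwards [eventually_ge_atTop b, htt.eventually (ev_inv k),
    eventually_ge_atTop (2 * b - Real.log^[k] (y b))] with x hx hx2 hx3
  have h3 := mvt_ge h1 h2 hx
  rw [← hx2]
  apply (exp_it_mono k).monotone
  linarith

theorem ode_not {F y : ℝ → ℝ} {a : ℝ} (hy : ∀ x, a ≤ x → HasDerivAt y (F (y x)) x)
    (htt : Tendsto y atTop atTop) {A : ℝ} (hA : 0 < A)
    (h : ∀ᶠ u in atTop, A * (u * F (Real.log u)) ≤ F u)
    (hK : ∀ K : ℝ, ∀ᶠ u in atTop, K * u ≤ F u) (N : ℕ) : ¬ y =O[atTop] (Real.exp^[N]) := by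
  intro hO
  obtain ⟨R, hR⟩ := eventually_atTop.1 h
  have h1 : ∀ᶠ u in atTop, 2 * PP (N + 1) u ≤ F u := by
    have h4 : ∀ᶠ u : ℝ in atTop, ∀ i, i < N → max R 0 ≤ Real.log^[i] u := by
      have h5 := (Filter.eventually_all_finite (Set.finite_Iio N) (l := (atTop : Filter ℝ))
        (p := fun i u => max R 0 ≤ Real.log^[i] u)).2
        (fun i _ => (log_it_tt i).eventually_ge_atTop _)
      filter_upwards [h5] with u hu i hi
      exact hu i hi
    filter_upwards [h4, ev_one N, (log_it_tt N).eventually (hK (2 / A ^ N))] with u h5 h6 h7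
    have h8 := it_q (F := F) (q := A) (R := max R 0) (le_max_right _ _) hA.le
      (fun u hu => hR u ((le_max_left _ _).trans hu)) N u h5
    refine le_trans ?_ h8
    have h9 := PP_pos h6 N le_rfl
    have h10 : 0 < A ^ N := by positivity
    have h11 : A ^ N * (PP N u * (2 / A ^ N * Real.log^[N] u)) ≤
        A ^ N * (PP N u * F (Real.log^[N] u)) :=
      mul_le_mul_of_nonneg_left (mul_le_mul_of_nonneg_left h7 h9.le) h10.le
    refine le_trans (le_of_eq ?_) h11
    rw [PP_succ]
    field_simp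
  obtain ⟨C, hC⟩ := hO.bound
  obtain ⟨x, h2, h3, h4, h5⟩ := ((ode_low hy htt (N + 1) h1).and (hC.and
    (((exp_it_tt N).eventually (above_exp 0 C)).and
      ((exp_it_tt N).eventually_gt_atTop 0)))).exists
  rw [Real.norm_eq_abs, Real.norm_eq_abs, abs_of_pos h5] at h3
  have h6 : C * Real.exp^[N] x < Real.exp (Real.exp^[N] x) := by simpa using h4
  rw [Function.iterate_succ_apply'] at h2
  have h7 := le_abs_self (y x)
  linarith

theorem ode_main (o : Omin L) (hexp : DF L (fun v : Fin 1 → ℝ => Real.exp (v 0)))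
    (hb : ∀ f : ℝ → ℝ, DF L (fun v : Fin 1 → ℝ => f (v 0)) → ∃ N : ℕ, f =O[atTop] (Real.exp^[N]))
    {F : ℝ → ℝ} (hF : DF L (fun v : Fin 1 → ℝ => F (v 0))) {y : ℝ → ℝ} {a : ℝ}
    (hy : ∀ x, a ≤ x → HasDerivAt y (F (y x)) x) (htt : Tendsto y atTop atTop) :
    ∃ c : ℝ, 0 ≤ c ∧ c ≤ 1 ∧ Tendsto (fun u => F u / (u * F (Real.log u))) atTop (𝓝 c) ∧
      ((∃ N : ℕ, y =O[atTop] (Real.exp^[N])) ↔ c = 0) := by
  have s2 : ∀ᶠ u in atTop, F u < u ^ 2 := by
    rcases o.dich (P := fun u => u ^ 2 ≤ F u) (o.dle (o.dpow (DF.var _) 2) hF) with h1 | h1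
    · exact (ode_blow hy htt 0 (h1.mono fun u hu => by simpa [PP] using hu)).elim
    · exact h1.mono fun u hu => not_le.1 hu
  have hp := ode_pos o hF hy htt
  have hlog := dlog o hexp
  obtain ⟨t, ht⟩ : ∃ t : ℝ → ℝ, t = fun u => F u / (u * F (Real.log u)) := ⟨_, rfl⟩
  have dt : DF L (fun v : Fin 1 → ℝ => t (v 0)) := by
    rw [ht]
    simp only [div_eq_mul_inv]
    exact o.dmul hF (o.dinv (o.dmul (DF.var _) (DF.sub1 hF (DF.sub1 hlog (DF.var _)))))
  have hpos : ∀ᶠ u in atTop, 0 < u ∧ 0 < F u ∧ 0 < F (Real.log u) := by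
    filter_upwards [hp, Real.tendsto_log_atTop.eventually hp, eventually_gt_atTop 0] with
      u h1 h2 h3
    exact ⟨h3, h1, h2⟩
  have tpos : ∀ᶠ u in atTop, 0 < t u := by
    filter_upwards [hpos] with u h1
    rw [ht]
    exact div_pos h1.2.1 (mul_pos h1.1 h1.2.2)
  have key : ∀ r : ℝ, (∀ᶠ u in atTop, r ≤ t u) ∨ ∀ᶠ u in atTop, t u < r := by
    intro r
    rcases o.dich (P := fun u => r ≤ t u) (o.dle (DF.const r) dt) with h1 | h1
    · exact Or.inl h1
    · exact Or.inr (h1.mono fun u hu => not_le.1 hu)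
  rw [← ht]
  by_cases hc0 : Tendsto t atTop (𝓝 0)
  · -- `t` tends to `0`
    refine ⟨0, le_rfl, zero_le_one, hc0, ⟨fun _ => rfl, fun _ => ?_⟩⟩
    have h1 : Tendsto (fun u => (t u)⁻¹) atTop atTop := by
      apply Tendsto.inv_tendsto_nhdsGT_zero
      rw [tendsto_nhdsWithin_iff]
      exact ⟨hc0, tpos⟩
    obtain ⟨k, hk⟩ := slow_lb o hb (s := fun u => (t u)⁻¹) (o.dinv dt) h1
    have h2 : ∀ᶠ u in atTop, F u ≤ u * F (Real.log u) := by
      filter_upwards [h1.eventually_ge_atTop 1, hpos] with u h3 h4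
      rw [ht] at h3
      simp only [inv_div] at h3
      rwa [le_div_iff₀ h4.2.1, one_mul] at h3
    have h3 : ∀ j : ℕ, ∀ᶠ u in atTop, F u ≤ PP j u * F (Real.log^[j] u) := by
      intro j
      induction j with
      | zero => exact Eventually.of_forall fun u => by simp [PP]
      | succ j ih =>
        filter_upwards [h2, Real.tendsto_log_atTop.eventually ih, eventually_gt_atTop 0] with
          u h4 h5 h6
        rw [PP_succ', Function.iterate_succ_apply, mul_assoc]
        exact h4.trans (mul_le_mul_of_nonneg_left h5 h6.le)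
    have h4 : ∀ᶠ r : ℝ in atTop, (Real.log r) ^ 2 ≤ r := by
      have h5 := above_exp 1 2
      filter_upwards [Real.tendsto_log_atTop.eventually h5, eventually_gt_atTop 1,
        Real.tendsto_log_atTop.eventually_gt_atTop 1] with r h6 h7 h8
      simp only [Function.iterate_one] at h6
      have h9 : Real.exp (2 * Real.log (Real.log r)) = Real.log r ^ 2 := by
        rw [mul_comm, Real.exp_mul, Real.exp_log (by linarith)]
        norm_num
      rw [h9, Real.exp_log (by linarith)] at h6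
      exact h6.le
    refine ⟨k + 2, ode_up hy htt (k + 1) ?_⟩
    filter_upwards [hk, hpos, Real.tendsto_log_atTop.eventually (h3 k), ev_one k,
      (log_it_tt (k + 1)).eventually s2, (log_it_tt k).eventually h4] with u h5 h6 h7 h8 h9 h10
    rw [ht] at h5
    simp only [inv_div] at h5
    rw [le_div_iff₀ h6.2.1] at h5
    rw [← Function.iterate_succ_apply] at h7
    have h11 := PP_pos h8 k le_rfl
    have h12 := h8 k le_rfl
    have h13 : 0 < PP (k + 1) u := by
      rw [PP_succ]
      exact mul_pos h11 (by linarith)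
    have h14 : u * F (Real.log u) ≤ PP (k + 1) u * F (Real.log^[k + 1] u) := by
      have h15 := mul_le_mul_of_nonneg_left h7 h6.1.le
      rw [← mul_assoc, ← PP_succ'] at h15
      exact h15
    have h16 : F (Real.log^[k + 1] u) ≤ Real.log^[k] u := by
      rw [← Function.iterate_succ_apply' Real.log k u] at h10
      linarith
    have h17 : PP (k + 1) u * F (Real.log^[k + 1] u) ≤ PP (k + 1) u * Real.log^[k] u :=
      mul_le_mul_of_nonneg_left h16 h13.le
    have h18 : Real.log^[k] u * F u ≤ Real.log^[k] u * PP (k + 1) u := by linarith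
    exact le_of_mul_le_mul_left h18 (by linarith)
  · -- `t` is bounded below
    obtain ⟨A, hA0, hA⟩ : ∃ A, 0 < A ∧ ∀ᶠ u in atTop, A ≤ t u := by
      by_contra hcon
      push Not at hcon
      apply hc0
      rw [tendsto_order]
      constructor
      · intro r hr
        exact tpos.mono fun u hu => hr.trans hu
      · intro r hr
        rcases key r with h1 | h1
        · obtain ⟨u, h2, h3⟩ := ((hcon _ hr).and_eventually h1).exists
          exact absurd h3 (not_le.2 h2)
        · exact h1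
    have hAF : ∀ᶠ u in atTop, A * (u * F (Real.log u)) ≤ F u := by
      filter_upwards [hA, hpos] with u h1 h2
      rw [ht] at h1
      rwa [le_div_iff₀ (mul_pos h2.1 h2.2.2)] at h1
    have hK := ode_big o hF hp hA0 hAF
    have s1 : ∀ᶠ u in atTop, u < F u := by
      filter_upwards [hK 2, eventually_gt_atTop 0] with u h1 h2
      linarith
    -- `t` does not tend to infinity
    have s3 : ¬ Tendsto t atTop atTop := by
      intro h1
      obtain ⟨k, hk⟩ := slow_lb o hb dt h1
      have h2 : ∀ᶠ u in atTop, 1 * (u * F (Real.log u)) ≤ F u := by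
        filter_upwards [h1.eventually_ge_atTop 1, hpos] with u h3 h4
        rw [ht] at h3
        rwa [le_div_iff₀ (mul_pos h4.1 h4.2.2)] at h3
      obtain ⟨R, hR⟩ := eventually_atTop.1 h2
      have h3 : ∀ᶠ u in atTop, PP k u * F (Real.log^[k] u) ≤ F u := by
        have h4 : ∀ᶠ u : ℝ in atTop, ∀ i, i < k → max R 0 ≤ Real.log^[i] u := by
          have h5 := (Filter.eventually_all_finite (Set.finite_Iio k) (l := (atTop : Filter ℝ))
            (p := fun i u => max R 0 ≤ Real.log^[i] u)).2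
            (fun i _ => (log_it_tt i).eventually_ge_atTop _)
          filter_upwards [h5] with u hu i hi
          exact hu i hi
        filter_upwards [h4] with u hu
        have h6 := it_q (F := F) (q := 1) (R := max R 0) (le_max_right _ _) zero_le_one
          (fun u hu => hR u ((le_max_left _ _).trans hu)) k u hu
        simpa using h6
      apply ode_blow hy htt k
      filter_upwards [hk, hpos, Real.tendsto_log_atTop.eventually h3, ev_one k,
        (log_it_tt (k + 1)).eventually s1, (log_it_tt (k + 1)).eventually_ge_atTop 1] with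
        u h4 h5 h6 h7 h8 h9
      rw [ht] at h4
      rw [le_div_iff₀ (mul_pos h5.1 h5.2.2)] at h4
      rw [← Function.iterate_succ_apply] at h6
      have h10 : 1 ≤ F (Real.log^[k + 1] u) := by linarith
      have h11 := PP_pos h7 k le_rfl
      have h12 := h7 k le_rfl
      have h13 : 0 < PP (k + 1) u := by
        rw [PP_succ]
        exact mul_pos h11 (by linarith)
      have h14 : PP (k + 1) u ≤ u * F (Real.log u) := by
        have h15 := mul_le_mul_of_nonneg_left h6 h5.1.le
        rw [← mul_assoc, ← PP_succ'] at h15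
        have h16 : PP (k + 1) u * 1 ≤ PP (k + 1) u * F (Real.log^[k + 1] u) :=
          mul_le_mul_of_nonneg_left h10 h13.le
        linarith
      have h15 : Real.log^[k] u * PP (k + 1) u ≤ Real.log^[k] u * (u * F (Real.log u)) :=
        mul_le_mul_of_nonneg_left h14 (by linarith)
      rw [PP_succ] at h15
      calc PP k u * Real.log^[k] u ^ 2 = Real.log^[k] u * (PP k u * Real.log^[k] u) := by ring
        _ ≤ Real.log^[k] u * (u * F (Real.log u)) := h15
        _ ≤ F u := h4
    obtain ⟨B, hB⟩ : ∃ B, ∀ᶠ u in atTop, t u < B := by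
      rw [tendsto_atTop] at s3
      push Not at s3
      obtain ⟨B, hB⟩ := s3
      rcases key B with h1 | h1
      · obtain ⟨u, h2, h3⟩ := (hB.and_eventually h1).exists
        exact absurd h3 (not_le.2 h2)
      · exact ⟨B, h1⟩
    have hSb : BddAbove {r : ℝ | ∀ᶠ u in atTop, r ≤ t u} := by
      refine ⟨B, fun r hr => ?_⟩
      obtain ⟨u, h1, h2⟩ := (Eventually.and hr hB).exists
      linarith
    have hlim : Tendsto t atTop (𝓝 (sSup {r : ℝ | ∀ᶠ u in atTop, r ≤ t u})) := by
      rw [tendsto_order]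
      constructor
      · intro r hr
        obtain ⟨r', hr', hrr⟩ := exists_lt_of_lt_csSup ⟨A, hA⟩ hr
        exact (hr' : ∀ᶠ u in atTop, r' ≤ t u).mono fun u hu => lt_of_lt_of_le hrr hu
      · intro r hr
        rcases key r with h1 | h1
        · exact absurd (le_csSup hSb h1) (not_le.2 hr)
        · exact h1
    have hcpos := lt_of_lt_of_le hA0 (le_csSup hSb hA)
    refine ⟨sSup {r : ℝ | ∀ᶠ u in atTop, r ≤ t u}, hcpos.le, ?_, hlim, ?_⟩
    · by_contra hc
      push Not at hc
      obtain ⟨q, hq1, hq2⟩ := exists_between hc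
      refine ode_q hy htt hq1 (s1.mono fun u hu => hu.le) ?_
      filter_upwards [hlim.eventually_const_lt hq2, hpos] with u h1 h2
      rw [ht] at h1
      rw [lt_div_iff₀ (mul_pos h2.1 h2.2.2)] at h1
      exact h1.le
    · constructor
      · rintro ⟨N, hN⟩
        exact absurd hN (ode_not hy htt hA0 hAF hK N)
      · intro h1
        exact absurd h1 hcpos.ne'

end Pool.Agent.Work.MP_973fa8.h22
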