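import Pool.Agent.Work.MP_973fa8_h22.Ode

/-! # MP_973fa8: differential inequalities over an exponentially bounded structure -/

set_option autoImplicit false

namespace Pool.Agent.Work.MP_973fa8.h22

open Set Filter Topology Pool.Agent.Work.MP_973fa8.helper46

variable {L : FirstOrder.Language.{0, 0}} [L.Structure ℝ] {α : Type}

/-- composition with the iterated logarithm -/
theorem hd_comp' {y : ℝ → ℝ} {x d : ℝ} (hy : HasDerivAt y d x) (k : ℕ)
    (hv : ∀ i, i < k → 0 < Real.log^[i] (y x)) :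
    HasDerivAt (fun x => Real.log^[k] (y x)) ((PP k (y x))⁻¹ * d) x :=
  (hd_log k hv).comp x hy

theorem ode_up' {F y d : ℝ → ℝ} {a : ℝ} (hy : ∀ x, a ≤ x → HasDerivAt y (d x) x)
    {B : ℝ} (hB : 0 < B) (hBd : ∀ x, a ≤ x → d x ≤ B * F (y x))
    (htt : Tendsto y atTop atTop) (k : ℕ) (hF : ∀ᶠ u in atTop, F u ≤ PP k u) :
    y =O[atTop] (Real.exp^[k + 1]) := by
  obtain ⟨b, hb⟩ := eventually_atTop.1 ((htt.eventually (ev_one k)).and ((htt.eventually hF).and
    (eventually_ge_atTop a)))
  have h1 : ∀ x, b ≤ x → HasDerivAt (fun x => Real.log^[k] (y x))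
      ((PP k (y x))⁻¹ * d x) x := fun x hx =>
    hd_comp' (hy x (hb x hx).2.2) k (fun i hi => lt_of_lt_of_le one_pos ((hb x hx).1 i hi.le))
  have h2 : ∀ x, b ≤ x → (PP k (y x))⁻¹ * d x ≤ B := by
    intro x hx
    rw [inv_mul_le_iff₀ (PP_pos (hb x hx).1 k le_rfl), mul_comm]
    exact (hBd x (hb x hx).2.2).trans (mul_le_mul_of_nonneg_left (hb x hx).2.1 hB.le)
  have h3 : ∀ᶠ x : ℝ in atTop, Real.log^[k] (y b) + B * (x - b) ≤ Real.exp x := by
    have h4 := above_exp 0 (B + 1)
    filter_upwards [h4, eventually_ge_atTop (Real.log^[k] (y b) - B * b)] with x hx hx2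
    have h5 : (B + 1) * x < Real.exp x := by simpa using hx
    linarith
  refine Asymptotics.IsBigO.of_bound 1 ?_
  filter_upwards [eventually_ge_atTop b, h3, htt.eventually (ev_inv k), htt.eventually_gt_atTop 0]
    with x hx hx2 hx3 hx4
  have h4 := mvt_le h1 h2 hx
  rw [one_mul, Real.norm_eq_abs, Real.norm_eq_abs, abs_of_pos hx4]
  refine le_trans ?_ (le_abs_self _)
  rw [← hx3, Function.iterate_succ_apply]
  exact (exp_it_mono k).monotone (h4.trans hx2)

theorem ode_blow' {F y d : ℝ → ℝ} {a : ℝ} (hy : ∀ x, a ≤ x → HasDerivAt y (d x) x)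
    {A : ℝ} (hA : 0 < A) (hAd : ∀ x, a ≤ x → A * F (y x) ≤ d x)
    (htt : Tendsto y atTop atTop) (k : ℕ)
    (hF : ∀ᶠ u in atTop, PP k u * (Real.log^[k] u) ^ 2 ≤ F u) : False := by
  obtain ⟨b, hb⟩ := eventually_atTop.1 ((htt.eventually (ev_one k)).and ((htt.eventually hF).and
    (eventually_ge_atTop a)))
  have h0 : ∀ x, b ≤ x → 0 < Real.log^[k] (y x) := fun x hx =>
    lt_of_lt_of_le one_pos ((hb x hx).1 k le_rfl)
  have h1 : ∀ x, b ≤ x → HasDerivAt (fun x => (Real.log^[k] (y x))⁻¹)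
      (-((PP k (y x))⁻¹ * d x) / (Real.log^[k] (y x)) ^ 2) x := fun x hx =>
    (hd_comp' (hy x (hb x hx).2.2) k (fun i hi =>
      lt_of_lt_of_le one_pos ((hb x hx).1 i hi.le))).fun_inv (h0 x hx).ne'
  have h2 : ∀ x, b ≤ x → -((PP k (y x))⁻¹ * d x) / (Real.log^[k] (y x)) ^ 2 ≤ -A := by
    intro x hx
    have h3 := PP_pos (hb x hx).1 k le_rfl
    have h4 := h0 x hx
    rw [div_le_iff₀ (by positivity)]
    have h5 : A * (Real.log^[k] (y x)) ^ 2 ≤ (PP k (y x))⁻¹ * d x := by
      rw [le_inv_mul_iff₀ h3]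
      have h6 := mul_le_mul_of_nonneg_left (hb x hx).2.1 hA.le
      have h7 := hAd x (hb x hx).2.2
      linarith
    linarith
  have h3 := h0 b le_rfl
  have h4 : 0 < (Real.log^[k] (y b))⁻¹ := inv_pos.2 h3
  have h8 : 0 < (Real.log^[k] (y b))⁻¹ / A := div_pos h4 hA
  have h5 := mvt_le h1 h2 (x := b + (Real.log^[k] (y b))⁻¹ / A) (by linarith)
  have h6 : 0 < (Real.log^[k] (y (b + (Real.log^[k] (y b))⁻¹ / A)))⁻¹ :=
    inv_pos.2 (h0 _ (by linarith))
  have h7 : (Real.log^[k] (y b))⁻¹ + -A * (b + (Real.log^[k] (y b))⁻¹ / A - b) = 0 := by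
    field_simp
    ring
  linarith

theorem ode_q' {F y d : ℝ → ℝ} {a : ℝ} (hy : ∀ x, a ≤ x → HasDerivAt y (d x) x)
    {A : ℝ} (hA : 0 < A) (hAd : ∀ x, a ≤ x → A * F (y x) ≤ d x)
    (htt : Tendsto y atTop atTop) {q : ℝ} (hq : 1 < q) (hF1 : ∀ᶠ u in atTop, u ≤ F u)
    (hF : ∀ᶠ u in atTop, q * (u * F (Real.log u)) ≤ F u) : False := by
  obtain ⟨R, hR⟩ := eventually_atTop.1 (hF1.and (hF.and (eventually_ge_atTop 1)))
  have hR1 : 1 ≤ R := (hR R le_rfl).2.2
  obtain ⟨b, hb⟩ := eventually_atTop.1 ((htt.eventually_ge_atTop R).and (eventually_ge_atTop a))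
  have hd : ∀ x, b ≤ x → HasDerivAt y (d x) x := fun x hx => hy x (hb x hx).2
  have hd2 : ∀ x, b ≤ x → A * F (y x) ≤ d x := fun x hx => hAd x (hb x hx).2
  have hmono : ∀ x x', b ≤ x → x ≤ x' → y x ≤ y x' := by
    intro x x' hx hxx
    have h1 := mvt_ge (z := y) (z' := d) (b := x) (C := 0)
      (fun t ht => hd t (hx.trans ht)) (fun t ht => by
        have h2 := (hb t (hx.trans ht)).1
        have h3 := (hR _ h2).1
        have h4 := hd2 t (hx.trans ht)
        have h5 : 0 ≤ A * F (y t) := mul_nonneg hA.le (by linarith)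
        linarith) hxx
    linarith
  have step : ∀ (k : ℕ) (x : ℝ), b ≤ x → Real.exp^[k] R ≤ y x →
      Real.exp^[k + 1] R ≤ y (x + R / A * (1 / q) ^ k) := by
    intro k x hx hk
    have hlow : ∀ t, x ≤ t → ∀ i, i ≤ k → R ≤ Real.log^[i] (y t) := by
      intro t ht i hi
      obtain ⟨j, hj⟩ : ∃ j, k = i + j := ⟨k - i, by omega⟩
      have h1 : Real.exp^[i] (Real.exp^[j] R) ≤ y t := by
        rw [← Function.iterate_add_apply, ← hj]
        exact hk.trans (hmono x t hx ht)
      have h2 := (exp_log_it i h1).2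
      have h3 := exp_it_ge (R := R) j
      have h4 : (0 : ℝ) ≤ j := Nat.cast_nonneg j
      linarith
    have hdd : ∀ t, x ≤ t → HasDerivAt (fun x => Real.log^[k + 1] (y x))
        ((PP (k + 1) (y t))⁻¹ * d t) t := fun t ht =>
      hd_comp' (hd t (hx.trans ht)) (k + 1) (fun i hi => by
        have := hlow t ht i (by omega)
        linarith)
    have hdl : ∀ t, x ≤ t → A * q ^ k ≤ (PP (k + 1) (y t))⁻¹ * d t := by
      intro t ht
      have h1 : ∀ i, i ≤ k → 1 ≤ Real.log^[i] (y t) := fun i hi => hR1.trans (hlow t ht i hi)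
      have h2 := PP_pos h1 k le_rfl
      have h3 : 0 < PP (k + 1) (y t) := by
        rw [PP_succ]
        exact mul_pos h2 (lt_of_lt_of_le one_pos (h1 k le_rfl))
      rw [le_inv_mul_iff₀ h3]
      have h4 := it_q (F := F) (q := q) (R := R) (by linarith) (by linarith)
        (fun u hu => (hR u hu).2.1) k (y t) (fun i hi => hlow t ht i hi.le)
      have h5 := (hR _ (hlow t ht k le_rfl)).1
      have h6 : PP (k + 1) (y t) * q ^ k ≤
          q ^ k * (PP k (y t) * F (Real.log^[k] (y t))) := by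
        rw [PP_succ]
        have h7 : PP k (y t) * Real.log^[k] (y t) ≤ PP k (y t) * F (Real.log^[k] (y t)) :=
          mul_le_mul_of_nonneg_left h5 h2.le
        have h8 : 0 ≤ q ^ k := by positivity
        have h9 := mul_le_mul_of_nonneg_left h7 h8
        linarith
      have h10 := hd2 t (hx.trans ht)
      have h11 := mul_le_mul_of_nonneg_left (h6.trans h4) hA.le
      linarith
    have hq0 : 0 < q := by linarith
    have hx' : x ≤ x + R / A * (1 / q) ^ k := by
      have : 0 ≤ R / A * (1 / q) ^ k := by positivity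
      linarith
    have h1 := mvt_ge hdd hdl hx'
    have hlog : ∀ t, x ≤ t → Real.exp^[k + 1] (Real.log^[k + 1] (y t)) = y t ∧
        Real.log R ≤ Real.log^[k + 1] (y t) := by
      intro t ht
      apply exp_log_it
      rw [Function.iterate_succ_apply, Real.exp_log (by linarith)]
      exact hk.trans (hmono x t hx ht)
    have h2 : A * q ^ k * (x + R / A * (1 / q) ^ k - x) = R := by
      have h3 : q ^ k * (1 / q) ^ k = 1 := by
        rw [← mul_pow, mul_one_div_cancel hq0.ne', one_pow]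
      calc A * q ^ k * (x + R / A * (1 / q) ^ k - x) =
            A * (R / A) * (q ^ k * (1 / q) ^ k) := by ring
        _ = R := by rw [h3, mul_one, mul_div_cancel₀ _ hA.ne']
    rw [h2] at h1
    have h3 := (hlog x le_rfl).2
    have h4 := Real.log_nonneg hR1
    have h5 := (hlog _ hx').1
    rw [← h5]
    apply (exp_it_mono (k + 1)).monotone
    linarith
  have hq0 : 0 < q := by linarith
  have hq1 : 0 < q - 1 := by linarith
  have all : ∀ k : ℕ, Real.exp^[k] R ≤ y (b + R / A * (q / (q - 1)) * (1 - (1 / q) ^ k)) ∧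
      b ≤ b + R / A * (q / (q - 1)) * (1 - (1 / q) ^ k) := by
    intro k
    induction k with
    | zero =>
      simp only [Function.iterate_zero, id, pow_zero, sub_self, mul_zero, add_zero, le_refl,
        and_true]
      exact (hb b le_rfl).1
    | succ k ih =>
      have h1 := step k _ ih.2 ih.1
      have h2 : b + R / A * (q / (q - 1)) * (1 - (1 / q) ^ k) + R / A * (1 / q) ^ k =
          b + R / A * (q / (q - 1)) * (1 - (1 / q) ^ (k + 1)) := by
        rw [pow_succ]
        field_simp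
        ring
      rw [h2] at h1
      refine ⟨h1, ?_⟩
      have h3 : (1 / q) ^ (k + 1) ≤ 1 := pow_le_one₀ (by positivity) (by
        rw [div_le_one hq0]
        exact hq.le)
      have h4 : 0 ≤ R / A * (q / (q - 1)) * (1 - (1 / q) ^ (k + 1)) :=
        mul_nonneg (by positivity) (by linarith)
      linarith
  obtain ⟨n, hn⟩ := exists_nat_gt (y (b + R / A * (q / (q - 1))))
  obtain ⟨h1, h2⟩ := all n
  have h3 : y (b + R / A * (q / (q - 1)) * (1 - (1 / q) ^ n)) ≤ y (b + R / A * (q / (q - 1))) := by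
    apply hmono _ _ h2
    have h4 : 0 ≤ (1 / q) ^ n := by positivity
    have h5 : R / A * (q / (q - 1)) * (1 - (1 / q) ^ n) ≤ R / A * (q / (q - 1)) * 1 :=
      mul_le_mul_of_nonneg_left (by linarith) (by positivity)
    linarith
  have h4 := exp_it_ge (R := R) n
  linarith

theorem ode_pos' (o : Omin L) {F : ℝ → ℝ} (hF : DF L (fun v : Fin 1 → ℝ => F (v 0)))
    {y d : ℝ → ℝ} {a : ℝ} (hy : ∀ x, a ≤ x → HasDerivAt y (d x) x)
    {B : ℝ} (hB : 0 < B) (hBd : ∀ x, a ≤ x → d x ≤ B * F (y x))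
    (htt : Tendsto y atTop atTop) : ∀ᶠ u in atTop, 0 < F u := by
  rcases o.dich (P := fun u => 0 < F u) (o.dlt (DF.const 0) hF) with h1 | h1
  · exact h1
  · exfalso
    obtain ⟨b, hb⟩ := eventually_atTop.1 ((htt.eventually h1).and (eventually_ge_atTop a))
    obtain ⟨x, hx, hx2⟩ := ((htt.eventually_gt_atTop (y b)).and (eventually_ge_atTop b)).exists
    have h2 := mvt_le (z := y) (z' := d) (b := b) (C := 0)
      (fun t ht => hy t (hb t ht).2) (fun t ht => (hBd t (hb t ht).2).trans
        (mul_nonpos_of_nonneg_of_nonpos hB.le (not_lt.1 (hb t ht).1))) hx2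
    linarith

theorem ode_low' {F y d : ℝ → ℝ} {a : ℝ} (hy : ∀ x, a ≤ x → HasDerivAt y (d x) x)
    {A : ℝ} (hA : 0 < A) (hAd : ∀ x, a ≤ x → A * F (y x) ≤ d x)
    (htt : Tendsto y atTop atTop) (k : ℕ) (hF : ∀ᶠ u in atTop, 2 / A * PP k u ≤ F u) :
    ∀ᶠ x in atTop, Real.exp^[k] x ≤ y x := by
  obtain ⟨b, hb⟩ := eventually_atTop.1 ((htt.eventually (ev_one k)).and ((htt.eventually hF).and
    (eventually_ge_atTop a)))
  have h1 : ∀ x, b ≤ x → HasDerivAt (fun x => Real.log^[k] (y x))
      ((PP k (y x))⁻¹ * d x) x := fun x hx =>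
    hd_comp' (hy x (hb x hx).2.2) k (fun i hi => lt_of_lt_of_le one_pos ((hb x hx).1 i hi.le))
  have h2 : ∀ x, b ≤ x → 2 ≤ (PP k (y x))⁻¹ * d x := by
    intro x hx
    rw [le_inv_mul_iff₀ (PP_pos (hb x hx).1 k le_rfl), mul_comm]
    have h3 := mul_le_mul_of_nonneg_left (hb x hx).2.1 hA.le
    have h4 := hAd x (hb x hx).2.2
    have h5 : A * (2 / A * PP k (y x)) = 2 * PP k (y x) := by
      rw [← mul_assoc, mul_div_cancel₀ _ hA.ne']
    linarith
  filter_upwards [eventually_ge_atTop b, htt.eventually (ev_inv k),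
    eventually_ge_atTop (2 * b - Real.log^[k] (y b))] with x hx hx2 hx3
  have h3 := mvt_ge h1 h2 hx
  rw [← hx2]
  apply (exp_it_mono k).monotone
  linarith

theorem ode_not' {F y d : ℝ → ℝ} {a : ℝ} (hy : ∀ x, a ≤ x → HasDerivAt y (d x) x)
    {A' : ℝ} (hA' : 0 < A') (hAd : ∀ x, a ≤ x → A' * F (y x) ≤ d x)
    (htt : Tendsto y atTop atTop) {A : ℝ} (hA : 0 < A)
    (h : ∀ᶠ u in atTop, A * (u * F (Real.log u)) ≤ F u)
    (hK : ∀ K : ℝ, ∀ᶠ u in atTop, K * u ≤ F u) (N : ℕ) : ¬ y =O[atTop] (Real.exp^[N]) := by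
  intro hO
  obtain ⟨R, hR⟩ := eventually_atTop.1 h
  have h1 : ∀ᶠ u in atTop, 2 / A' * PP (N + 1) u ≤ F u := by
    have h4 : ∀ᶠ u : ℝ in atTop, ∀ i, i < N → max R 0 ≤ Real.log^[i] u := by
      have h5 := (Filter.eventually_all_finite (Set.finite_Iio N) (l := (atTop : Filter ℝ))
        (p := fun i u => max R 0 ≤ Real.log^[i] u)).2
        (fun i _ => (log_it_tt i).eventually_ge_atTop _)
      filter_upwards [h5] with u hu i hi
      exact hu i hi
    filter_upwards [h4, ev_one N, (log_it_tt N).eventually (hK (2 / A' / A ^ N))] with u h5 h6 h7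
    have h8 := it_q (F := F) (q := A) (R := max R 0) (le_max_right _ _) hA.le
      (fun u hu => hR u ((le_max_left _ _).trans hu)) N u h5
    refine le_trans ?_ h8
    have h9 := PP_pos h6 N le_rfl
    have h10 : 0 < A ^ N := by positivity
    have h11 : A ^ N * (PP N u * (2 / A' / A ^ N * Real.log^[N] u)) ≤
        A ^ N * (PP N u * F (Real.log^[N] u)) :=
      mul_le_mul_of_nonneg_left (mul_le_mul_of_nonneg_left h7 h9.le) h10.le
    refine le_trans (le_of_eq ?_) h11
    rw [PP_succ]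
    field_simp
  obtain ⟨C, hC⟩ := hO.bound
  obtain ⟨x, h2, h3, h4, h5⟩ := ((ode_low' hy hA' hAd htt (N + 1) h1).and (hC.and
    (((exp_it_tt N).eventually (above_exp 0 C)).and
      ((exp_it_tt N).eventually_gt_atTop 0)))).exists
  rw [Real.norm_eq_abs, Real.norm_eq_abs, abs_of_pos h5] at h3
  have h6 : C * Real.exp^[N] x < Real.exp (Real.exp^[N] x) := by simpa using h4
  rw [Function.iterate_succ_apply'] at h2
  have h7 := le_abs_self (y x)
  linarith

theorem ode_main' (o : Omin L) (hexp : DF L (fun v : Fin 1 → ℝ => Real.exp (v 0)))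
    (hb : ∀ f : ℝ → ℝ, DF L (fun v : Fin 1 → ℝ => f (v 0)) → ∃ N : ℕ, f =O[atTop] (Real.exp^[N]))
    {F : ℝ → ℝ} (hF : DF L (fun v : Fin 1 → ℝ => F (v 0))) {y d : ℝ → ℝ} {a : ℝ}
    (hy : ∀ x, a ≤ x → HasDerivAt y (d x) x)
    {A' : ℝ} (hA' : 0 < A') (hAd : ∀ x, a ≤ x → A' * F (y x) ≤ d x)
    {B' : ℝ} (hB' : 0 < B') (hBd : ∀ x, a ≤ x → d x ≤ B' * F (y x)) (htt : Tendsto y atTop atTop) :
    ∃ c : ℝ, 0 ≤ c ∧ c ≤ 1 ∧ Tendsto (fun u => F u / (u * F (Real.log u))) atTop (𝓝 c) ∧
      ((∃ N : ℕ, y =O[atTop] (Real.exp^[N])) ↔ c = 0) := by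
  have s2 : ∀ᶠ u in atTop, F u < u ^ 2 := by
    rcases o.dich (P := fun u => u ^ 2 ≤ F u) (o.dle (o.dpow (DF.var _) 2) hF) with h1 | h1
    · exact (ode_blow' hy hA' hAd htt 0 (h1.mono fun u hu => by simpa [PP] using hu)).elim
    · exact h1.mono fun u hu => not_le.1 hu
  have hp := ode_pos' o hF hy hB' hBd htt
  have hlog := dlog o hexp
  obtain ⟨t, ht⟩ : ∃ t : ℝ → ℝ, t = fun u => F u / (u * F (Real.log u)) := ⟨_, rfl⟩
  have dt : DF L (fun v : Fin 1 → ℝ => t (v 0)) := by
    rw [ht]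
    simp only [div_eq_mul_inv]
    exact o.dmul hF (o.dinv (o.dmul (DF.var _) (DF.sub1 hF (DF.sub1 hlog (DF.var _)))))
  have hpos : ∀ᶠ u in atTop, 0 < u ∧ 0 < F u ∧ 0 < F (Real.log u) := by
    filter_upwards [hp, Real.tendsto_log_atTop.eventually hp, eventually_gt_atTop 0] with
      u h1 h2 h3
    exact ⟨h3, h1, h2⟩
  have tpos : ∀ᶠ u in atTop, 0 < t u := by
    filter_upwards [hpos] with u h1
    rw [ht]
    exact div_pos h1.2.1 (mul_pos h1.1 h1.2.2)
  have key : ∀ r : ℝ, (∀ᶠ u in atTop, r ≤ t u) ∨ ∀ᶠ u in atTop, t u < r := by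
    intro r
    rcases o.dich (P := fun u => r ≤ t u) (o.dle (DF.const r) dt) with h1 | h1
    · exact Or.inl h1
    · exact Or.inr (h1.mono fun u hu => not_le.1 hu)
  rw [← ht]
  by_cases hc0 : Tendsto t atTop (𝓝 0)
  · -- `t` tends to `0`
    refine ⟨0, le_rfl, zero_le_one, hc0, ⟨fun _ => rfl, fun _ => ?_⟩⟩
    have h1 : Tendsto (fun u => (t u)⁻¹) atTop atTop := by
      apply Tendsto.inv_tendsto_nhdsGT_zero
      rw [tendsto_nhdsWithin_iff]
      exact ⟨hc0, tpos⟩
    obtain ⟨k, hk⟩ := slow_lb o hb (s := fun u => (t u)⁻¹) (o.dinv dt) h1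
    have h2 : ∀ᶠ u in atTop, F u ≤ u * F (Real.log u) := by
      filter_upwards [h1.eventually_ge_atTop 1, hpos] with u h3 h4
      rw [ht] at h3
      simp only [inv_div] at h3
      rwa [le_div_iff₀ h4.2.1, one_mul] at h3
    have h3 : ∀ j : ℕ, ∀ᶠ u in atTop, F u ≤ PP j u * F (Real.log^[j] u) := by
      intro j
      induction j with
      | zero => exact Eventually.of_forall fun u => by simp [PP]
      | succ j ih =>
        filter_upwards [h2, Real.tendsto_log_atTop.eventually ih, eventually_gt_atTop 0] with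
          u h4 h5 h6
        rw [PP_succ', Function.iterate_succ_apply, mul_assoc]
        exact h4.trans (mul_le_mul_of_nonneg_left h5 h6.le)
    have h4 : ∀ᶠ r : ℝ in atTop, (Real.log r) ^ 2 ≤ r := by
      have h5 := above_exp 1 2
      filter_upwards [Real.tendsto_log_atTop.eventually h5, eventually_gt_atTop 1,
        Real.tendsto_log_atTop.eventually_gt_atTop 1] with r h6 h7 h8
      simp only [Function.iterate_one] at h6
      have h9 : Real.exp (2 * Real.log (Real.log r)) = Real.log r ^ 2 := by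
        rw [mul_comm, Real.exp_mul, Real.exp_log (by linarith)]
        norm_num
      rw [h9, Real.exp_log (by linarith)] at h6
      exact h6.le
    refine ⟨k + 2, ode_up' hy hB' hBd htt (k + 1) ?_⟩
    filter_upwards [hk, hpos, Real.tendsto_log_atTop.eventually (h3 k), ev_one k,
      (log_it_tt (k + 1)).eventually s2, (log_it_tt k).eventually h4] with u h5 h6 h7 h8 h9 h10
    rw [ht] at h5
    simp only [inv_div] at h5
    rw [le_div_iff₀ h6.2.1] at h5
    rw [← Function.iterate_succ_apply] at h7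
    have h11 := PP_pos h8 k le_rfl
    have h12 := h8 k le_rfl
    have h13 : 0 < PP (k + 1) u := by
      rw [PP_succ]
      exact mul_pos h11 (by linarith)
    have h14 : u * F (Real.log u) ≤ PP (k + 1) u * F (Real.log^[k + 1] u) := by
      have h15 := mul_le_mul_of_nonneg_left h7 h6.1.le
      rw [← mul_assoc, ← PP_succ'] at h15
      exact h15
    have h16 : F (Real.log^[k + 1] u) ≤ Real.log^[k] u := by
      rw [← Function.iterate_succ_apply' Real.log k u] at h10
      linarith
    have h17 : PP (k + 1) u * F (Real.log^[k + 1] u) ≤ PP (k + 1) u * Real.log^[k] u :=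
      mul_le_mul_of_nonneg_left h16 h13.le
    have h18 : Real.log^[k] u * F u ≤ Real.log^[k] u * PP (k + 1) u := by linarith
    exact le_of_mul_le_mul_left h18 (by linarith)
  · -- `t` is bounded below
    obtain ⟨A, hA0, hA⟩ : ∃ A, 0 < A ∧ ∀ᶠ u in atTop, A ≤ t u := by
      by_contra hcon
      push Not at hcon
      apply hc0
      rw [tendsto_order]
      constructor
      · intro r hr
        exact tpos.mono fun u hu => hr.trans hu
      · intro r hr
        rcases key r with h1 | h1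
        · obtain ⟨u, h2, h3⟩ := ((hcon _ hr).and_eventually h1).exists
          exact absurd h3 (not_le.2 h2)
        · exact h1
    have hAF : ∀ᶠ u in atTop, A * (u * F (Real.log u)) ≤ F u := by
      filter_upwards [hA, hpos] with u h1 h2
      rw [ht] at h1
      rwa [le_div_iff₀ (mul_pos h2.1 h2.2.2)] at h1
    have hK := ode_big o hF hp hA0 hAF
    have s1 : ∀ᶠ u in atTop, u < F u := by
      filter_upwards [hK 2, eventually_gt_atTop 0] with u h1 h2
      linarith
    -- `t` does not tend to infinity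
    have s3 : ¬ Tendsto t atTop atTop := by
      intro h1
      obtain ⟨k, hk⟩ := slow_lb o hb dt h1
      have h2 : ∀ᶠ u in atTop, 1 * (u * F (Real.log u)) ≤ F u := by
        filter_upwards [h1.eventually_ge_atTop 1, hpos] with u h3 h4
        rw [ht] at h3
        rwa [le_div_iff₀ (mul_pos h4.1 h4.2.2)] at h3
      obtain ⟨R, hR⟩ := eventually_atTop.1 h2
      have h3 : ∀ᶠ u in atTop, PP k u * F (Real.log^[k] u) ≤ F u := by
        have h4 : ∀ᶠ u : ℝ in atTop, ∀ i, i < k → max R 0 ≤ Real.log^[i] u := by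
          have h5 := (Filter.eventually_all_finite (Set.finite_Iio k) (l := (atTop : Filter ℝ))
            (p := fun i u => max R 0 ≤ Real.log^[i] u)).2
            (fun i _ => (log_it_tt i).eventually_ge_atTop _)
          filter_upwards [h5] with u hu i hi
          exact hu i hi
        filter_upwards [h4] with u hu
        have h6 := it_q (F := F) (q := 1) (R := max R 0) (le_max_right _ _) zero_le_one
          (fun u hu => hR u ((le_max_left _ _).trans hu)) k u hu
        simpa using h6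
      apply ode_blow' hy hA' hAd htt k
      filter_upwards [hk, hpos, Real.tendsto_log_atTop.eventually h3, ev_one k,
        (log_it_tt (k + 1)).eventually s1, (log_it_tt (k + 1)).eventually_ge_atTop 1] with
        u h4 h5 h6 h7 h8 h9
      rw [ht] at h4
      rw [le_div_iff₀ (mul_pos h5.1 h5.2.2)] at h4
      rw [← Function.iterate_succ_apply] at h6
      have h10 : 1 ≤ F (Real.log^[k + 1] u) := by linarith
      have h11 := PP_pos h7 k le_rfl
      have h12 := h7 k le_rfl
      have h13 : 0 < PP (k + 1) u := by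
        rw [PP_succ]
        exact mul_pos h11 (by linarith)
      have h14 : PP (k + 1) u ≤ u * F (Real.log u) := by
        have h15 := mul_le_mul_of_nonneg_left h6 h5.1.le
        rw [← mul_assoc, ← PP_succ'] at h15
        have h16 : PP (k + 1) u * 1 ≤ PP (k + 1) u * F (Real.log^[k + 1] u) :=
          mul_le_mul_of_nonneg_left h10 h13.le
        linarith
      have h15 : Real.log^[k] u * PP (k + 1) u ≤ Real.log^[k] u * (u * F (Real.log u)) :=
        mul_le_mul_of_nonneg_left h14 (by linarith)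
      rw [PP_succ] at h15
      calc PP k u * Real.log^[k] u ^ 2 = Real.log^[k] u * (PP k u * Real.log^[k] u) := by ring
        _ ≤ Real.log^[k] u * (u * F (Real.log u)) := h15
        _ ≤ F u := h4
    obtain ⟨B, hB⟩ : ∃ B, ∀ᶠ u in atTop, t u < B := by
      rw [tendsto_atTop] at s3
      push Not at s3
      obtain ⟨B, hB⟩ := s3
      rcases key B with h1 | h1
      · obtain ⟨u, h2, h3⟩ := (hB.and_eventually h1).exists
        exact absurd h3 (not_le.2 h2)
      · exact ⟨B, h1⟩
    have hSb : BddAbove {r : ℝ | ∀ᶠ u in atTop, r ≤ t u} := by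
      refine ⟨B, fun r hr => ?_⟩
      obtain ⟨u, h1, h2⟩ := (Eventually.and hr hB).exists
      linarith
    have hlim : Tendsto t atTop (𝓝 (sSup {r : ℝ | ∀ᶠ u in atTop, r ≤ t u})) := by
      rw [tendsto_order]
      constructor
      · intro r hr
        obtain ⟨r', hr', hrr⟩ := exists_lt_of_lt_csSup ⟨A, hA⟩ hr
        exact (hr' : ∀ᶠ u in atTop, r' ≤ t u).mono fun u hu => lt_of_lt_of_le hrr hu
      · intro r hr
        rcases key r with h1 | h1
        · exact absurd (le_csSup hSb h1) (not_le.2 hr)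
        · exact h1
    have hcpos := lt_of_lt_of_le hA0 (le_csSup hSb hA)
    refine ⟨sSup {r : ℝ | ∀ᶠ u in atTop, r ≤ t u}, hcpos.le, ?_, hlim, ?_⟩
    · by_contra hc
      push Not at hc
      obtain ⟨q, hq1, hq2⟩ := exists_between hc
      refine ode_q' hy hA' hAd htt hq1 (s1.mono fun u hu => hu.le) ?_
      filter_upwards [hlim.eventually_const_lt hq2, hpos] with u h1 h2
      rw [ht] at h1
      rw [lt_div_iff₀ (mul_pos h2.1 h2.2.2)] at h1
      exact h1.le
    · constructor
      · rintro ⟨N, hN⟩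
        exact absurd hN (ode_not' hy hA' hAd htt hA0 hAF hK N)
      · intro h1
        exact absurd h1 hcpos.ne'

end Pool.Agent.Work.MP_973fa8.h22
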