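import Pool.Agent.Work.MP_973fa8_h22.Ode2

/-! # MP_973fa8: differential inequalities with factors depending on `x` -/

set_option autoImplicit false

namespace Pool.Agent.Work.MP_973fa8.h22

open Set Filter Topology Pool.Agent.Work.MP_973fa8.helper46

variable {L : FirstOrder.Language.{0, 0}} [L.Structure ℝ] {α : Type}

/-- `F ≤ P_k` gives an exponentially bounded solution -/
theorem odx_up {F y d : ℝ → ℝ} {a : ℝ} (hy : ∀ x, a ≤ x → HasDerivAt y (d x) x)
    (N : ℕ) (hBd : ∀ x, a ≤ x → d x ≤ Real.exp^[N] x * F (y x))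
    (htt : Tendsto y atTop atTop) (k : ℕ) (hF : ∀ᶠ u in atTop, F u ≤ PP k u) :
    ∃ K : ℕ, y =O[atTop] (Real.exp^[K]) := by
  obtain ⟨b, hb⟩ := eventually_atTop.1 ((htt.eventually (ev_one k)).and ((htt.eventually hF).and
    ((eventually_ge_atTop a).and (eventually_ge_atTop 0))))
  have h1 : ∀ x, b ≤ x → HasDerivAt (fun x => Real.log^[k] (y x))
      ((PP k (y x))⁻¹ * d x) x := fun x hx =>
    hd_comp' (hy x (hb x hx).2.2.1) k
      (fun i hi => lt_of_lt_of_le one_pos ((hb x hx).1 i hi.le))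
  have h2 : ∀ x, b ≤ x → (PP k (y x))⁻¹ * d x ≤ Real.exp^[N] x := by
    intro x hx
    rw [inv_mul_le_iff₀ (PP_pos (hb x hx).1 k le_rfl), mul_comm]
    exact (hBd x (hb x hx).2.2.1).trans (mul_le_mul_of_nonneg_left (hb x hx).2.1
      (exp_it_nonneg N (hb x hx).2.2.2))
  have h5 : ∀ x, b ≤ x → Real.log^[k] (y x) ≤
      Real.log^[k] (y b) + Real.exp^[N] x * (x - b) := by
    intro x hx
    rcases hx.eq_or_lt with h6 | h6
    · rw [← h6]
      simp
    · obtain ⟨c, hc, hc2⟩ := exists_hasDerivAt_eq_slope (fun x => Real.log^[k] (y x))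
        (fun x => (PP k (y x))⁻¹ * d x) h6
        (fun t ht => (h1 t ht.1).continuousAt.continuousWithinAt) (fun t ht => h1 t ht.1.le)
      have h7 := (h2 c hc.1.le).trans ((exp_it_mono N).monotone hc.2.le)
      rw [hc2, div_le_iff₀ (by linarith)] at h7
      linarith
  refine ⟨k + (N + 2), Asymptotics.IsBigO.of_bound 1 ?_⟩
  have h3 : ∀ᶠ r : ℝ in atTop, Real.log^[k] (y b) + r * r ≤ Real.exp (Real.exp r) := by
    have h4 := above_exp 0 (|Real.log^[k] (y b)| + 1)
    have h8 := above_exp 1 2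
    filter_upwards [Real.tendsto_exp_atTop.eventually h4, h4, eventually_ge_atTop 1,
      Real.tendsto_exp_atTop.eventually h8] with r h9 h10 h11 h12
    have h13 : (|Real.log^[k] (y b)| + 1) * Real.exp r < Real.exp (Real.exp r) := by
      simpa using h9
    have h14 : (|Real.log^[k] (y b)| + 1) * r < Real.exp r := by simpa using h10
    have h15 : Real.exp r * Real.exp r < Real.exp (Real.exp r) := by
      simp only [Function.iterate_one, Real.log_exp] at h12
      rw [← Real.exp_add, ← two_mul]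
      exact h12
    have h16 := le_abs_self (Real.log^[k] (y b))
    have h17 := abs_nonneg (Real.log^[k] (y b))
    have h18 := Real.add_one_le_exp r
    have h19 : |Real.log^[k] (y b)| + r ≤ Real.exp r := by nlinarith
    have h20 : |Real.log^[k] (y b)| + r * r ≤
        (|Real.log^[k] (y b)| + r) * (|Real.log^[k] (y b)| + r) := by nlinarith
    have h21 : (|Real.log^[k] (y b)| + r) * (|Real.log^[k] (y b)| + r) ≤
        Real.exp r * Real.exp r :=
      mul_le_mul h19 h19 (by linarith) (Real.exp_pos _).le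
    linarith
  filter_upwards [eventually_ge_atTop b, (exp_it_tt N).eventually h3,
    htt.eventually (ev_inv k), htt.eventually_gt_atTop 0, eventually_ge_atTop 0] with
    x hx hx2 hx3 hx4 hx5
  have h6 := h5 x hx
  have h7 := exp_it_ge (R := x) N
  have h8 : (0 : ℝ) ≤ N := Nat.cast_nonneg N
  have hb0 : 0 ≤ b := (hb b le_rfl).2.2.2
  have h9 : Real.exp^[N] x * (x - b) ≤ Real.exp^[N] x * Real.exp^[N] x :=
    mul_le_mul_of_nonneg_left (by linarith) (exp_it_nonneg N hx5)
  rw [one_mul, Real.norm_eq_abs, Real.norm_eq_abs, abs_of_pos hx4]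
  refine le_trans ?_ (le_abs_self _)
  rw [← hx3, Function.iterate_add_apply]
  apply (exp_it_mono k).monotone
  rw [Function.iterate_succ_apply', Function.iterate_succ_apply']
  linarith

/-- `P_k (log_k)^2 ≤ F` gives an exponentially bounded solution -/
theorem odx_blow {F y d : ℝ → ℝ} {a : ℝ} (hy : ∀ x, a ≤ x → HasDerivAt y (d x) x)
    (N : ℕ) (hAd : ∀ x, a ≤ x → (Real.exp^[N] x)⁻¹ * F (y x) ≤ d x)
    (htt : Tendsto y atTop atTop) (k : ℕ)
    (hF : ∀ᶠ u in atTop, PP k u * (Real.log^[k] u) ^ 2 ≤ F u) :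
    ∃ K : ℕ, y =O[atTop] (Real.exp^[K]) := by
  obtain ⟨b, hb⟩ := eventually_atTop.1 ((htt.eventually (ev_one k)).and ((htt.eventually hF).and
    ((eventually_ge_atTop a).and (eventually_ge_atTop 1))))
  have h0 : ∀ x, b ≤ x → 0 < Real.log^[k] (y x) := fun x hx =>
    lt_of_lt_of_le one_pos ((hb x hx).1 k le_rfl)
  have hE : ∀ x, b ≤ x → 0 < Real.exp^[N] x := by
    intro x hx
    have h7 := exp_it_ge (R := x) N
    have h8 : (0 : ℝ) ≤ N := Nat.cast_nonneg N
    have h9 := (hb x hx).2.2.2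
    linarith
  have h1 : ∀ x, b ≤ x → HasDerivAt (fun x => (Real.log^[k] (y x))⁻¹)
      (-((PP k (y x))⁻¹ * d x) / (Real.log^[k] (y x)) ^ 2) x := fun x hx =>
    (hd_comp' (hy x (hb x hx).2.2.1) k (fun i hi =>
      lt_of_lt_of_le one_pos ((hb x hx).1 i hi.le))).fun_inv (h0 x hx).ne'
  have h2 : ∀ x, b ≤ x → -((PP k (y x))⁻¹ * d x) / (Real.log^[k] (y x)) ^ 2 ≤
      -(Real.exp^[N] x)⁻¹ := by
    intro x hx
    have h3 := PP_pos (hb x hx).1 k le_rfl
    have h4 := h0 x hx
    rw [div_le_iff₀ (by positivity)]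
    have h5 : (Real.exp^[N] x)⁻¹ * (Real.log^[k] (y x)) ^ 2 ≤ (PP k (y x))⁻¹ * d x := by
      rw [le_inv_mul_iff₀ h3]
      have h6 := mul_le_mul_of_nonneg_left (hb x hx).2.1 (inv_pos.2 (hE x hx)).le
      have h7 := hAd x (hb x hx).2.2.1
      linarith
    linarith
  have h5 : ∀ x, b ≤ x → Real.log^[k] (y x) ≤ Real.exp^[N] (x + 1) := by
    intro x hx
    have h6 := mvt_le (z := fun x => (Real.log^[k] (y x))⁻¹)
      (z' := fun t => -((PP k (y t))⁻¹ * d t) / (Real.log^[k] (y t)) ^ 2) (b := x)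
      (C := 0) (fun t ht => h1 t (hx.trans ht)) (fun t ht => (h2 t (hx.trans ht)).trans (by
        have := inv_pos.2 (hE t (hx.trans ht))
        linarith)) (x := x + 1) (by linarith)
    obtain ⟨c, hc, hc2⟩ := exists_hasDerivAt_eq_slope (fun x => (Real.log^[k] (y x))⁻¹)
      (fun t => -((PP k (y t))⁻¹ * d t) / (Real.log^[k] (y t)) ^ 2) (by linarith : x < x + 1)
      (fun t ht => (h1 t (hx.trans ht.1)).continuousAt.continuousWithinAt)
      (fun t ht => h1 t (hx.trans ht.1.le))
    have h7 := h2 c (hx.trans hc.1.le)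
    rw [hc2] at h7
    have h8 : (Real.exp^[N] (x + 1))⁻¹ ≤ (Real.exp^[N] c)⁻¹ :=
      inv_anti₀ (hE c (hx.trans hc.1.le)) ((exp_it_mono N).monotone hc.2.le)
    have h9 : 0 < (Real.log^[k] (y (x + 1)))⁻¹ := inv_pos.2 (h0 _ (by linarith))
    have h10 : (Real.exp^[N] (x + 1))⁻¹ ≤ (Real.log^[k] (y x))⁻¹ := by
      have h11 : x + 1 - x = 1 := by ring
      rw [h11, div_one] at h7
      linarith
    exact (inv_le_inv₀ (hE _ (by linarith)) (h0 x hx)).1 h10
  refine ⟨k + (N + 1), Asymptotics.IsBigO.of_bound 1 ?_⟩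
  filter_upwards [eventually_ge_atTop b, htt.eventually (ev_inv k),
    htt.eventually_gt_atTop 0] with x hx hx3 hx4
  rw [one_mul, Real.norm_eq_abs, Real.norm_eq_abs, abs_of_pos hx4]
  refine le_trans ?_ (le_abs_self _)
  rw [← hx3, Function.iterate_add_apply]
  apply (exp_it_mono k).monotone
  rw [Function.iterate_succ_apply]
  exact (h5 x hx).trans ((exp_it_mono N).monotone (Real.add_one_le_exp x))

theorem odx_main (o : Omin L) (hexp : DF L (fun v : Fin 1 → ℝ => Real.exp (v 0)))
    (hb : ∀ f : ℝ → ℝ, DF L (fun v : Fin 1 → ℝ => f (v 0)) → ∃ N : ℕ, f =O[atTop] (Real.exp^[N]))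
    {F : ℝ → ℝ} (hF : DF L (fun v : Fin 1 → ℝ => F (v 0))) {y d : ℝ → ℝ} {a : ℝ}
    (hy : ∀ x, a ≤ x → HasDerivAt y (d x) x) (N : ℕ)
    (hAd : ∀ x, a ≤ x → (Real.exp^[N] x)⁻¹ * F (y x) ≤ d x)
    (hBd : ∀ x, a ≤ x → d x ≤ Real.exp^[N] x * F (y x))
    (htt : Tendsto y atTop atTop) (hn : ¬ ∃ K : ℕ, y =O[atTop] (Real.exp^[K])) :
    ∃ c : ℝ, 0 < c ∧ Tendsto (fun u => F u / (u * F (Real.log u))) atTop (𝓝 c) := by
  have hp : ∀ᶠ u in atTop, 0 < F u := by
    rcases o.dich (P := fun u => 0 < F u) (o.dlt (DF.const 0) hF) with h1 | h1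
    · exact h1
    · exfalso
      apply hn
      exact odx_up hy N hBd htt 0 (h1.mono fun u hu => by
        have : PP 0 u = 1 := rfl
        rw [this]
        linarith [not_lt.1 hu])
  have hlog := dlog o hexp
  obtain ⟨t, ht⟩ : ∃ t : ℝ → ℝ, t = fun u => F u / (u * F (Real.log u)) := ⟨_, rfl⟩
  have dt : DF L (fun v : Fin 1 → ℝ => t (v 0)) := by
    rw [ht]
    simp only [div_eq_mul_inv]
    exact o.dmul hF (o.dinv (o.dmul (DF.var _) (DF.sub1 hF (DF.sub1 hlog (DF.var _)))))
  have hpos : ∀ᶠ u in atTop, 0 < u ∧ 0 < F u ∧ 0 < F (Real.log u) := by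
    filter_upwards [hp, Real.tendsto_log_atTop.eventually hp, eventually_gt_atTop 0] with
      u h1 h2 h3
    exact ⟨h3, h1, h2⟩
  have tpos : ∀ᶠ u in atTop, 0 < t u := by
    filter_upwards [hpos] with u h1
    rw [ht]
    exact div_pos h1.2.1 (mul_pos h1.1 h1.2.2)
  have key : ∀ r : ℝ, (∀ᶠ u in atTop, r ≤ t u) ∨ ∀ᶠ u in atTop, t u < r := by
    intro r
    rcases o.dich (P := fun u => r ≤ t u) (o.dle (DF.const r) dt) with h1 | h1
    · exact Or.inl h1
    · exact Or.inr (h1.mono fun u hu => not_le.1 hu)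
  rw [← ht]
  have hc0 : ¬ Tendsto t atTop (𝓝 0) := by
    intro hc0
    apply hn
    have h1 : Tendsto (fun u => (t u)⁻¹) atTop atTop := by
      apply Tendsto.inv_tendsto_nhdsGT_zero
      rw [tendsto_nhdsWithin_iff]
      exact ⟨hc0, tpos⟩
    obtain ⟨k, hk⟩ := slow_lb o hb (s := fun u => (t u)⁻¹) (o.dinv dt) h1
    have h2 : ∀ᶠ u in atTop, F u ≤ u * F (Real.log u) := by
      filter_upwards [h1.eventually_ge_atTop 1, hpos] with u h3 h4
      rw [ht] at h3
      simp only [inv_div] at h3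
      rwa [le_div_iff₀ h4.2.1, one_mul] at h3
    have h3 : ∀ j : ℕ, ∀ᶠ u in atTop, F u ≤ PP j u * F (Real.log^[j] u) := by
      intro j
      induction j with
      | zero => exact Eventually.of_forall fun u => by simp [PP]
      | succ j ih =>
        filter_upwards [h2, Real.tendsto_log_atTop.eventually ih, eventually_gt_atTop 0] with
          u h4 h5 h6
        rw [PP_succ', Function.iterate_succ_apply, mul_assoc]
        exact h4.trans (mul_le_mul_of_nonneg_left h5 h6.le)
    obtain ⟨M, hM⟩ : ∃ M : ℕ, ∀ᶠ u in atTop, F u ≤ Real.exp^[M] u := by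
      obtain ⟨M, hM⟩ := hb F hF
      obtain ⟨C, hC⟩ := hM.bound
      refine ⟨M + 1, ?_⟩
      filter_upwards [hC, (exp_it_tt M).eventually (above_exp 0 C),
        (exp_it_tt M).eventually_gt_atTop 0] with v hv hv2 hv3
      rw [Real.norm_eq_abs, Real.norm_eq_abs, abs_of_pos hv3] at hv
      have h4 : C * Real.exp^[M] v < Real.exp (Real.exp^[M] v) := by simpa using hv2
      rw [Function.iterate_succ_apply']
      have h5 := le_abs_self (F v)
      linarith
    refine odx_up hy N hBd htt (M + k + 1) ?_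
    filter_upwards [hk, hpos, Real.tendsto_log_atTop.eventually (h3 (M + k)), ev_one (M + k + 1),
      (log_it_tt (M + k + 1)).eventually hM, (log_it_tt (k + 1)).eventually (ev_inv M)] with
      u h5 h6 h7 h8 h9 h10
    rw [ht] at h5
    simp only [inv_div] at h5
    rw [le_div_iff₀ h6.2.1] at h5
    rw [← Function.iterate_succ_apply] at h7
    have h13 := PP_pos h8 (M + k + 1) le_rfl
    have h12 := h8 k (by omega)
    have h14 : u * F (Real.log u) ≤ PP (M + k + 1) u * F (Real.log^[M + k + 1] u) := by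
      have h15 := mul_le_mul_of_nonneg_left h7 h6.1.le
      rw [← mul_assoc, ← PP_succ'] at h15
      exact h15
    have h16 : F (Real.log^[M + k + 1] u) ≤ Real.log^[k] u := by
      refine h9.trans ?_
      rw [show M + k + 1 = M + (k + 1) by ring, Function.iterate_add_apply Real.log M (k + 1),
        h10, Function.iterate_succ_apply']
      have h17 := Real.add_one_le_exp (Real.log (Real.log^[k] u))
      rw [Real.exp_log (by linarith)] at h17
      linarith
    have h17 : PP (M + k + 1) u * F (Real.log^[M + k + 1] u) ≤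
        PP (M + k + 1) u * Real.log^[k] u :=
      mul_le_mul_of_nonneg_left h16 h13.le
    have h18 : Real.log^[k] u * F u ≤ Real.log^[k] u * PP (M + k + 1) u := by linarith
    exact le_of_mul_le_mul_left h18 (by linarith)
  obtain ⟨A, hA0, hA⟩ : ∃ A, 0 < A ∧ ∀ᶠ u in atTop, A ≤ t u := by
    by_contra hcon
    push Not at hcon
    apply hc0
    rw [tendsto_order]
    constructor
    · intro r hr
      exact tpos.mono fun u hu => hr.trans hu
    · intro r hr
      rcases key r with h1 | h1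
      · obtain ⟨u, h2, h3⟩ := ((hcon _ hr).and_eventually h1).exists
        exact absurd h3 (not_le.2 h2)
      · exact h1
  have hAF : ∀ᶠ u in atTop, A * (u * F (Real.log u)) ≤ F u := by
    filter_upwards [hA, hpos] with u h1 h2
    rw [ht] at h1
    rwa [le_div_iff₀ (mul_pos h2.1 h2.2.2)] at h1
  have hK := ode_big o hF hp hA0 hAF
  have s1 : ∀ᶠ u in atTop, u < F u := by
    filter_upwards [hK 2, eventually_gt_atTop 0] with u h1 h2
    linarith
  have s3 : ¬ Tendsto t atTop atTop := by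
    intro h1
    apply hn
    obtain ⟨k, hk⟩ := slow_lb o hb dt h1
    have h2 : ∀ᶠ u in atTop, 1 * (u * F (Real.log u)) ≤ F u := by
      filter_upwards [h1.eventually_ge_atTop 1, hpos] with u h3 h4
      rw [ht] at h3
      rwa [le_div_iff₀ (mul_pos h4.1 h4.2.2)] at h3
    obtain ⟨R, hR⟩ := eventually_atTop.1 h2
    have h3 : ∀ᶠ u in atTop, PP k u * F (Real.log^[k] u) ≤ F u := by
      have h4 : ∀ᶠ u : ℝ in atTop, ∀ i, i < k → max R 0 ≤ Real.log^[i] u := by
        have h5 := (Filter.eventually_all_finite (Set.finite_Iio k) (l := (atTop : Filter ℝ))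
          (p := fun i u => max R 0 ≤ Real.log^[i] u)).2
          (fun i _ => (log_it_tt i).eventually_ge_atTop _)
        filter_upwards [h5] with u hu i hi
        exact hu i hi
      filter_upwards [h4] with u hu
      have h6 := it_q (F := F) (q := 1) (R := max R 0) (le_max_right _ _) zero_le_one
        (fun u hu => hR u ((le_max_left _ _).trans hu)) k u hu
      simpa using h6
    apply odx_blow hy N hAd htt k
    filter_upwards [hk, hpos, Real.tendsto_log_atTop.eventually h3, ev_one k,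
      (log_it_tt (k + 1)).eventually s1, (log_it_tt (k + 1)).eventually_ge_atTop 1] with
      u h4 h5 h6 h7 h8 h9
    rw [ht] at h4
    rw [le_div_iff₀ (mul_pos h5.1 h5.2.2)] at h4
    rw [← Function.iterate_succ_apply] at h6
    have h10 : 1 ≤ F (Real.log^[k + 1] u) := by linarith
    have h11 := PP_pos h7 k le_rfl
    have h12 := h7 k le_rfl
    have h13 : 0 < PP (k + 1) u := by
      rw [PP_succ]
      exact mul_pos h11 (by linarith)
    have h14 : PP (k + 1) u ≤ u * F (Real.log u) := by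
      have h15 := mul_le_mul_of_nonneg_left h6 h5.1.le
      rw [← mul_assoc, ← PP_succ'] at h15
      have h16 : PP (k + 1) u * 1 ≤ PP (k + 1) u * F (Real.log^[k + 1] u) :=
        mul_le_mul_of_nonneg_left h10 h13.le
      linarith
    have h15 : Real.log^[k] u * PP (k + 1) u ≤ Real.log^[k] u * (u * F (Real.log u)) :=
      mul_le_mul_of_nonneg_left h14 (by linarith)
    rw [PP_succ] at h15
    calc PP k u * Real.log^[k] u ^ 2 = Real.log^[k] u * (PP k u * Real.log^[k] u) := by ring
      _ ≤ Real.log^[k] u * (u * F (Real.log u)) := h15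
      _ ≤ F u := h4
  obtain ⟨B, hB⟩ : ∃ B, ∀ᶠ u in atTop, t u < B := by
    rw [tendsto_atTop] at s3
    push Not at s3
    obtain ⟨B, hB⟩ := s3
    rcases key B with h1 | h1
    · obtain ⟨u, h2, h3⟩ := (hB.and_eventually h1).exists
      exact absurd h3 (not_le.2 h2)
    · exact ⟨B, h1⟩
  have hSb : BddAbove {r : ℝ | ∀ᶠ u in atTop, r ≤ t u} := by
    refine ⟨B, fun r hr => ?_⟩
    obtain ⟨u, h1, h2⟩ := (Eventually.and hr hB).exists
    linarith
  have hlim : Tendsto t atTop (𝓝 (sSup {r : ℝ | ∀ᶠ u in atTop, r ≤ t u})) := by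
    rw [tendsto_order]
    constructor
    · intro r hr
      obtain ⟨r', hr', hrr⟩ := exists_lt_of_lt_csSup ⟨A, hA⟩ hr
      exact (hr' : ∀ᶠ u in atTop, r' ≤ t u).mono fun u hu => lt_of_lt_of_le hrr hu
    · intro r hr
      rcases key r with h1 | h1
      · exact absurd (le_csSup hSb h1) (not_le.2 hr)
      · exact h1
  exact ⟨_, lt_of_lt_of_le hA0 (le_csSup hSb hA), hlim⟩

end Pool.Agent.Work.MP_973fa8.h22
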